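import Pool.Agent.H274R3.Dim.Str
import Pool.Agent.H628R3.RO.A1
import Pool.Agent.H628R3.RO.A2

/-!
# Strings, codes, the oracles of the construction
-/

set_option autoImplicit false

namespace Pool.Agent.H274R3.Dim

open Pool.Agent.NPC Pool.Agent.H628R3.RO

theorem pairBits_inj {x w x' w' : List Bool} (h : pairBits x w = pairBits x' w') :
    x = x' ∧ w = w' := by
  have h1 := unpair_pairBits x w
  rw [h, unpair_pairBits, Prod.mk.injEq] at h1
  exact ⟨h1.1.symm, h1.2.symm⟩

/-- the position in the oracle telling that `u` is a witness for the string number `k` -/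
def code (k : ℕ) (u : List Bool) : List Bool := false :: pairBits (str k) u

theorem code_inj {k k' : ℕ} {u u' : List Bool} (h : code k u = code k' u') : k = k' ∧ u = u' := by
  unfold code at h
  rw [List.cons.injEq] at h
  obtain ⟨h1, h2⟩ := pairBits_inj h.2
  exact ⟨str_inj h1, h2⟩

theorem length_code (k : ℕ) (u : List Bool) : (code k u).length = 2 * lg k + 2 + u.length := by
  unfold code
  rw [List.length_cons, length_pairBits, length_str]
  ring

/-- the factor by which the capital changes at a bit `b`, when the amount `x` is bet on `true` -/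
noncomputable def fac (x : ℝ) (b : Bool) : ℝ := if b then 1 + x else 1 - x

/-- the martingale with the bets `β` -/
noncomputable def mg (β : ℕ → ℝ) (w : List Bool) : ℝ :=
  ∏ k ∈ Finset.range w.length, fac (β k) (w.getD k false)

/-- the gale with the bets `β` -/
noncomputable def gale (β : ℕ → ℝ) (w : List Bool) : ℝ :=
  2 ^ (-(w.length : ℝ) / 32) * mg β w

/-- the approximations of the gale -/
noncomputable def apx (β : ℕ → ℝ) (r : ℕ) (w : List Bool) : ℚ :=
  (⌊gale β w * 2 ^ r⌋₊ : ℚ) / 2 ^ r

/-- the table of the values of the gale -/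
def Tab (β : ℕ → ℝ) : Set (List Bool) :=
  {v | ∃ (r : ℕ) (w : List Bool) (k : ℕ),
    v = true :: pairBits (pairBits (List.replicate r true) w) (Nat.bits k) ∧
    (pairBits (bits (apx β r w)) [])[k]? = some true}

open Classical in
/-- the oracles -/
noncomputable def Orc (W : Set (ℕ × List Bool)) (β : ℕ → ℝ) : Oracle := fun v =>
  decide ((∃ p ∈ W, v = code p.1 p.2) ∨ v ∈ Tab β)

theorem Orc_code (W : Set (ℕ × List Bool)) (β : ℕ → ℝ) (k : ℕ) (u : List Bool) :
    Orc W β (code k u) = true ↔ (k, u) ∈ W := by
  simp only [Orc, decide_eq_true_eq]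
  constructor
  · rintro (⟨⟨k', u'⟩, h1, h2⟩ | h)
    · obtain ⟨rfl, rfl⟩ := code_inj h2
      exact h1
    · obtain ⟨r, w, k', h, -⟩ := h
      simp [code] at h
  · intro h
    exact Or.inl ⟨(k, u), h, rfl⟩

theorem replicate_inj {a b : ℕ} {t : Bool} (h : List.replicate a t = List.replicate b t) :
    a = b := by
  have := congrArg List.length h
  simpa using this

theorem natBits_inj {a b : ℕ} (h : Nat.bits a = Nat.bits b) : a = b := by
  apply TEnc.inj (α := ℕ)
  change toT a.bits = toT b.bits
  rw [h]

theorem Orc_tab (W : Set (ℕ × List Bool)) (β : ℕ → ℝ) (r : ℕ) (w : List Bool) (k : ℕ) :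
    Orc W β (true :: pairBits (pairBits (List.replicate r true) w) (Nat.bits k)) = true ↔
      (pairBits (bits (apx β r w)) [])[k]? = some true := by
  simp only [Orc, decide_eq_true_eq]
  constructor
  · rintro (⟨p, -, h2⟩ | ⟨r', w', k', h, h'⟩)
    · simp [code] at h2
    · rw [List.cons.injEq] at h
      obtain ⟨h1, h2⟩ := pairBits_inj h.2
      obtain ⟨h3, h4⟩ := pairBits_inj h1
      have h5 := natBits_inj h2
      have h6 := replicate_inj h3
      subst h5 h6 h4
      exact h'
  · intro h
    exact Or.inr ⟨r, w, k, rfl, h⟩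

theorem mg_congr {β β' : ℕ → ℝ} {w : List Bool} (h : ∀ k < w.length, β k = β' k) :
    mg β w = mg β' w := by
  unfold mg
  refine Finset.prod_congr rfl fun k hk => ?_
  rw [h k (Finset.mem_range.1 hk)]

theorem apx_congr {β β' : ℕ → ℝ} {w : List Bool} (h : ∀ k < w.length, β k = β' k) (r : ℕ) :
    apx β r w = apx β' r w := by
  unfold apx gale
  rw [mg_congr h]

theorem mem_Tab_congr {β β' : ℕ → ℝ} {v : List Bool} (h : ∀ k < v.length, β k = β' k)
    (hv : v ∈ Tab β) : v ∈ Tab β' := by
  obtain ⟨r, w, k, h1, h2⟩ := hv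
  refine ⟨r, w, k, h1, ?_⟩
  rwa [← apx_congr (β := β) (fun k hk => h k ?_)]
  rw [h1]
  simp only [List.length_cons, length_pairBits, List.length_replicate]
  omega

theorem Orc_congr {W W' : Set (ℕ × List Bool)} {β β' : ℕ → ℝ} {v : List Bool}
    (hW : ∀ k u, v = code k u → ((k, u) ∈ W ↔ (k, u) ∈ W'))
    (hβ : ∀ k < v.length, β k = β' k) : Orc W β v = Orc W' β' v := by
  unfold Orc
  rw [decide_eq_decide]
  apply or_congr
  · constructor
    · rintro ⟨⟨k, u⟩, h1, h2⟩
      exact ⟨(k, u), (hW k u h2).1 h1, h2⟩
    · rintro ⟨⟨k, u⟩, h1, h2⟩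
      exact ⟨(k, u), (hW k u h2).2 h1, h2⟩
  · constructor
    · exact mem_Tab_congr hβ
    · exact mem_Tab_congr fun k hk => (hβ k hk).symm

/-! ### Queries -/

/-- the answers on `F` determine the output -/
def Det (F : Finset (List Bool)) (A : Oracle) (K : Alg) (x : List Bool) : Prop :=
  ∀ A' : Oracle, (∀ v ∈ F, A' v = A v) → K.out A' x = K.out A x

theorem Det.mono {F F' : Finset (List Bool)} {A : Oracle} {K : Alg} {x : List Bool}
    (h : Det F A K x) (hF : F ⊆ F') : Det F' A K x :=
  fun A' h' => h A' fun v hv => h' v (hF hv)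

theorem Det.congr {F : Finset (List Bool)} {A B : Oracle} {K : Alg} {x : List Bool}
    (h : Det F A K x) (hB : ∀ v ∈ F, B v = A v) : Det F B K x := by
  intro A' h'
  rw [h B hB]
  exact h A' fun v hv => (h' v hv).trans (hB v hv)

/-- a polynomial bound for the length of the queries -/
noncomputable def qb (M : Alg) : Polynomial ℕ := M.out_local.choose

/-- the queries -/
noncomputable def qs (M : Alg) (A : Oracle) (x : List Bool) : Finset (List Bool) :=
  (M.out_local.choose_spec A x).choose

theorem qs_card (M : Alg) (A : Oracle) (x : List Bool) : (qs M A x).card ≤ M.p.eval x.length :=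
  (M.out_local.choose_spec A x).choose_spec.1

theorem qs_len (M : Alg) (A : Oracle) (x : List Bool) :
    ∀ q ∈ qs M A x, q.length ≤ (qb M).eval x.length :=
  (M.out_local.choose_spec A x).choose_spec.2.1

theorem qs_det (M : Alg) (A : Oracle) (x : List Bool) : Det (qs M A x) A M x :=
  (M.out_local.choose_spec A x).choose_spec.2.2

/-- if two oracles agree on the short strings then the outputs agree -/
theorem out_eq_of_short (M : Alg) (A A' : Oracle) (x : List Bool)
    (h : ∀ v : List Bool, v.length ≤ (qb M).eval x.length → A' v = A v) :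
    M.out A' x = M.out A x :=
  qs_det M A x A' fun v hv => h v (qs_len M A x v hv)

end Pool.Agent.H274R3.Dim
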