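import Pool.Agent.H274R3.Dim.Base

/-!
# Bets of the oracle algorithms, and the potential
-/

set_option autoImplicit false

namespace Pool.Agent.H274R3.Dim

open Pool.Agent.NPC Pool.Agent.H628R3.RO

/-! ### Growth -/

theorem eval_mono' (P : Polynomial ℕ) {a b : ℕ} (h : a ≤ b) : P.eval a ≤ P.eval b := by
  rw [Polynomial.eval_eq_sum_range, Polynomial.eval_eq_sum_range]
  refine Finset.sum_le_sum fun i _ => ?_
  exact Nat.mul_le_mul_left _ (Nat.pow_le_pow_left h i)

theorem eval_le_pow (P : Polynomial ℕ) : ∃ D : ℕ, ∀ x : ℕ, 2 ≤ x → P.eval x ≤ x ^ D := by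
  refine ⟨P.eval 1 + P.natDegree, fun x hx => ?_⟩
  rw [Polynomial.eval_eq_sum_range, Polynomial.eval_eq_sum_range, pow_add]
  have h1 : ∑ i ∈ Finset.range (P.natDegree + 1), P.coeff i * x ^ i ≤
      (∑ i ∈ Finset.range (P.natDegree + 1), P.coeff i * 1 ^ i) * x ^ P.natDegree := by
    rw [Finset.sum_mul]
    refine Finset.sum_le_sum fun i hi => ?_
    rw [one_pow, mul_one]
    exact Nat.mul_le_mul_left _ (Nat.pow_le_pow_right (by omega)
      (by have := Finset.mem_range.1 hi; omega))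
  refine h1.trans (Nat.mul_le_mul_right _ ?_)
  exact (Nat.lt_two_pow_self).le.trans (Nat.pow_le_pow_left hx _)

theorem grow (P : Polynomial ℕ) : ∃ l₀ : ℕ, ∀ k : ℕ, l₀ ≤ lg k →
    P.eval (5 * k + 10) < 2 ^ (lg k ^ 2) := by
  obtain ⟨D, hD⟩ := eval_le_pow P
  refine ⟨5 * D + 1, fun k hk => ?_⟩
  have h1 := lt_pow_lg k
  have h2 : 5 * k + 10 ≤ 2 ^ (lg k + 4) := by
    have : 2 ^ (lg k + 4) = 8 * 2 ^ (lg k + 1) := by ring
    omega
  have h3 := hD (5 * k + 10) (by omega)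
  have h4 : (5 * k + 10) ^ D ≤ (2 ^ (lg k + 4)) ^ D := Nat.pow_le_pow_left h2 _
  rw [← pow_mul] at h4
  refine (h3.trans h4).trans_lt (Nat.pow_lt_pow_right (by norm_num) ?_)
  nlinarith

theorem grow2 (P : Polynomial ℕ) : ∃ l₀ : ℕ, ∀ l : ℕ, l₀ ≤ l → P.eval l < 2 ^ l := by
  obtain ⟨D, hD⟩ := eval_le_pow P
  -- `l ^ D < 2 ^ l` eventually
  have h : ∀ᶠ l : ℕ in Filter.atTop, l ^ D < 2 ^ l := by
    have h1 := tendsto_pow_const_div_const_pow_of_one_lt D (show (1 : ℝ) < 2 by norm_num)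
    have h2 := h1.eventually (gt_mem_nhds (show (0 : ℝ) < 1 by norm_num))
    filter_upwards [h2] with l hl
    rw [div_lt_one (by positivity)] at hl
    exact_mod_cast hl
  obtain ⟨l₀, hl₀⟩ := Filter.eventually_atTop.1 h
  exact ⟨max l₀ 2, fun l hl => (hD l (le_trans (le_max_right _ _) hl)).trans_lt
    (hl₀ l (le_trans (le_max_left _ _) hl))⟩

/-! ### The enumeration of the algorithms -/

instance : Nonempty Alg := ⟨⟨fun x => x, polyTime_id, 0⟩⟩

/-- an enumeration of the algorithms -/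
noncomputable def en : ℕ → Alg := (exists_surjective_nat Alg).choose

theorem en_surj : Function.Surjective en := (exists_surjective_nat Alg).choose_spec

theorem exists_act (j : ℕ) : ∃ t : ℕ, 7 ≤ t ∧ ∀ k, t ≤ k → j ≤ lg k ∧
    (en j).p.eval (5 * k + 10) ≤ 2 ^ (lg k ^ 2) ∧ (qb (en j)).eval (5 * k + 10) < 2 ^ (lg k ^ 2) := by
  obtain ⟨l₁, h₁⟩ := grow (en j).p
  obtain ⟨l₂, h₂⟩ := grow (qb (en j))
  refine ⟨2 ^ (l₁ + l₂ + j + 3), ?_, fun k hk => ?_⟩
  · have : 2 ^ 3 ≤ 2 ^ (l₁ + l₂ + j + 3) := Nat.pow_le_pow_right (by norm_num) (by omega)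
    omega
  · have h : l₁ + l₂ + j + 3 ≤ lg k := le_lg_iff.2 (by omega)
    exact ⟨by omega, (h₁ k (by omega)).le, h₂ k (by omega)⟩

/-- the time from which on the algorithm number `j` is taken into account -/
noncomputable def act (j : ℕ) : ℕ := (exists_act j).choose

theorem act_ge (j : ℕ) : 7 ≤ act j := (exists_act j).choose_spec.1

theorem act_spec (j : ℕ) : ∀ k, act j ≤ k → j ≤ lg k ∧
    (en j).p.eval (5 * k + 10) ≤ 2 ^ (lg k ^ 2) ∧ (qb (en j)).eval (5 * k + 10) < 2 ^ (lg k ^ 2) :=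
  (exists_act j).choose_spec.2

/-! ### The language and the bets -/

/-- the string number `k` is in the language -/
def bt (W : Set (ℕ × List Bool)) (k : ℕ) : Prop :=
  ∃ u : List Bool, u.length ≤ lg k ^ 3 ∧ (k, u) ∈ W

open Classical in
/-- the bit number `k` of the characteristic sequence -/
noncomputable def bw (W : Set (ℕ × List Bool)) (k : ℕ) : Bool := decide (bt W k)

/-- the prefixes of the characteristic sequence -/
noncomputable def pf (W : Set (ℕ × List Bool)) (n : ℕ) : List Bool := (List.range n).map (bw W)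

theorem length_pf (W : Set (ℕ × List Bool)) (n : ℕ) : (pf W n).length = n := by simp [pf]

theorem pf_succ (W : Set (ℕ × List Bool)) (n : ℕ) : pf W (n + 1) = pf W n ++ [bw W n] := by
  simp [pf, List.range_succ]

/-- the input whose output is the bet -/
noncomputable def xin (W : Set (ℕ × List Bool)) (k : ℕ) (b : Bool) : List Bool :=
  pairBits (List.replicate (2 * k + 4) true) (pf W k ++ [b])

theorem length_xin (W : Set (ℕ × List Bool)) (k : ℕ) (b : Bool) :
    (xin W k b).length = 5 * k + 10 := by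
  simp only [xin, length_pairBits, List.length_replicate, List.length_append, length_pf,
    List.length_singleton]
  ring

open Classical in
/-- the value of an output as a rational number -/
noncomputable def vo (o : Option (List Bool)) : ℝ :=
  if h : ∃ q : ℚ, o = some (bits q) then ((h.choose : ℚ) : ℝ) else 0

theorem vo_some (q : ℚ) : vo (some (bits q)) = q := by
  have h : ∃ q' : ℚ, (some (bits q) : Option (List Bool)) = some (bits q') := ⟨q, rfl⟩
  unfold vo
  rw [dif_pos h]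
  have h1 := h.choose_spec
  rw [Option.some.injEq] at h1
  rw [← bits_injective h1]

/-- the regularized value -/
noncomputable def av (o : Option (List Bool)) (k : ℕ) : ℝ := max (vo o) 0 + (1 / 2) ^ (k + 1)

theorem av_pos (o : Option (List Bool)) (k : ℕ) : 0 < av o k := by
  unfold av
  positivity

/-- the bet of the algorithm `K` -/
noncomputable def rho (K : Alg) (A : Oracle) (W : Set (ℕ × List Bool)) (k : ℕ) (b : Bool) : ℝ :=
  av (K.out A (xin W k b)) k / (av (K.out A (xin W k false)) k + av (K.out A (xin W k true)) k)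

theorem rho_nonneg (K : Alg) (A : Oracle) (W : Set (ℕ × List Bool)) (k : ℕ) (b : Bool) :
    0 ≤ rho K A W k b :=
  div_nonneg (av_pos _ _).le (add_nonneg (av_pos _ _).le (av_pos _ _).le)

theorem rho_add (K : Alg) (A : Oracle) (W : Set (ℕ × List Bool)) (k : ℕ) :
    rho K A W k false + rho K A W k true = 1 := by
  unfold rho
  rw [← add_div]
  exact div_self (add_pos (av_pos _ _) (av_pos _ _)).ne'

open Classical in
/-- the bet of the algorithm number `j`, or no bet as long as the algorithm is not taken into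
account -/
noncomputable def rt (j : ℕ) (W : Set (ℕ × List Bool)) (β : ℕ → ℝ) (k : ℕ) (b : Bool) : ℝ :=
  if k < act j then 1 / 2 else rho (en j) (Orc W β) W k b

theorem rt_nonneg (j : ℕ) (W : Set (ℕ × List Bool)) (β : ℕ → ℝ) (k : ℕ) (b : Bool) :
    0 ≤ rt j W β k b := by
  unfold rt
  split_ifs
  · norm_num
  · exact rho_nonneg _ _ _ _ _

theorem rt_add (j : ℕ) (W : Set (ℕ × List Bool)) (β : ℕ → ℝ) (k : ℕ) :
    rt j W β k false + rt j W β k true = 1 := by
  unfold rt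
  split_ifs
  · norm_num
  · exact rho_add _ _ _ _

theorem rt_le_one (j : ℕ) (W : Set (ℕ × List Bool)) (β : ℕ → ℝ) (k : ℕ) (b : Bool) :
    rt j W β k b ≤ 1 := by
  have h1 := rt_add j W β k
  have h2 := rt_nonneg j W β k false
  have h3 := rt_nonneg j W β k true
  cases b <;> linarith

/-- the product of the bets on the true bits -/
noncomputable def pi (j : ℕ) (W : Set (ℕ × List Bool)) (β : ℕ → ℝ) (n : ℕ) : ℝ :=
  ∏ k ∈ Finset.range n, rt j W β k (bw W k)

theorem pi_nonneg (j : ℕ) (W : Set (ℕ × List Bool)) (β : ℕ → ℝ) (n : ℕ) : 0 ≤ pi j W β n :=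
  Finset.prod_nonneg fun _ _ => rt_nonneg _ _ _ _ _

theorem pi_le_one (j : ℕ) (W : Set (ℕ × List Bool)) (β : ℕ → ℝ) (n : ℕ) : pi j W β n ≤ 1 :=
  Finset.prod_le_one (fun _ _ => rt_nonneg _ _ _ _ _) fun _ _ => rt_le_one _ _ _ _ _

theorem pi_succ (j : ℕ) (W : Set (ℕ × List Bool)) (β : ℕ → ℝ) (n : ℕ) :
    pi j W β (n + 1) = pi j W β n * rt j W β n (bw W n) := by
  unfold pi
  rw [Finset.prod_range_succ]

/-- the potential after a bit `b` -/
noncomputable def Pob (W : Set (ℕ × List Bool)) (β : ℕ → ℝ) (n : ℕ) (b : Bool) : ℝ :=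
  ∑' j : ℕ, (1 / 2) ^ j * (pi j W β n * rt j W β n b)

/-- the potential -/
noncomputable def Pot (W : Set (ℕ × List Bool)) (β : ℕ → ℝ) (n : ℕ) : ℝ :=
  ∑' j : ℕ, (1 / 2) ^ j * pi j W β n

theorem summable_of (f : ℕ → ℝ) (h0 : ∀ j, 0 ≤ f j) (h1 : ∀ j, f j ≤ 1) :
    Summable fun j : ℕ => (1 / 2 : ℝ) ^ j * f j := by
  refine Summable.of_nonneg_of_le (fun j => mul_nonneg (by positivity) (h0 j)) (fun j => ?_)
    (summable_geometric_of_lt_one (by norm_num) (by norm_num) : Summable fun j : ℕ => (1 / 2 : ℝ) ^ j)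
  exact mul_le_of_le_one_right (by positivity) (h1 j)

theorem summable_pi (W : Set (ℕ × List Bool)) (β : ℕ → ℝ) (n : ℕ) :
    Summable fun j : ℕ => (1 / 2 : ℝ) ^ j * pi j W β n :=
  summable_of _ (fun j => pi_nonneg j W β n) fun j => pi_le_one j W β n

theorem summable_pib (W : Set (ℕ × List Bool)) (β : ℕ → ℝ) (n : ℕ) (b : Bool) :
    Summable fun j : ℕ => (1 / 2 : ℝ) ^ j * (pi j W β n * rt j W β n b) :=
  summable_of _ (fun j => mul_nonneg (pi_nonneg j W β n) (rt_nonneg _ _ _ _ _)) fun j =>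
    mul_le_one₀ (pi_le_one j W β n) (rt_nonneg _ _ _ _ _) (rt_le_one _ _ _ _ _)

theorem Pob_add (W : Set (ℕ × List Bool)) (β : ℕ → ℝ) (n : ℕ) :
    Pob W β n false + Pob W β n true = Pot W β n := by
  unfold Pob Pot
  rw [← (summable_pib W β n false).tsum_add (summable_pib W β n true)]
  refine tsum_congr fun j => ?_
  rw [← mul_add, ← mul_add, rt_add, mul_one]

theorem Pob_nonneg (W : Set (ℕ × List Bool)) (β : ℕ → ℝ) (n : ℕ) (b : Bool) : 0 ≤ Pob W β n b :=
  tsum_nonneg fun j => mul_nonneg (by positivity)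
    (mul_nonneg (pi_nonneg _ _ _ _) (rt_nonneg _ _ _ _ _))

theorem Pot_nonneg (W : Set (ℕ × List Bool)) (β : ℕ → ℝ) (n : ℕ) : 0 ≤ Pot W β n :=
  tsum_nonneg fun j => mul_nonneg (by positivity) (pi_nonneg _ _ _ _)

theorem Pob_le (W : Set (ℕ × List Bool)) (β : ℕ → ℝ) (n : ℕ) (b : Bool) :
    Pob W β n b ≤ Pot W β n := by
  have h1 := Pob_add W β n
  have h2 := Pob_nonneg W β n false
  have h3 := Pob_nonneg W β n true
  cases b <;> linarith

theorem exists_Pob_le (W : Set (ℕ × List Bool)) (β : ℕ → ℝ) (n : ℕ) :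
    ∃ b, Pob W β n b ≤ 1 / 2 * Pot W β n := by
  have h1 := Pob_add W β n
  rcases le_total (Pob W β n false) (Pob W β n true) with h | h
  · exact ⟨false, by linarith⟩
  · exact ⟨true, by linarith⟩

theorem Pot_succ (W : Set (ℕ × List Bool)) (β : ℕ → ℝ) (n : ℕ) :
    Pot W β (n + 1) = Pob W β n (bw W n) := by
  unfold Pob Pot
  exact tsum_congr fun j => by rw [pi_succ]

theorem Pot_succ_le (W : Set (ℕ × List Bool)) (β : ℕ → ℝ) (n : ℕ) :
    Pot W β (n + 1) ≤ Pot W β n := by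
  rw [Pot_succ]
  exact Pob_le _ _ _ _

theorem pi_le_Pot (j : ℕ) (W : Set (ℕ × List Bool)) (β : ℕ → ℝ) (n : ℕ) :
    (1 / 2) ^ j * pi j W β n ≤ Pot W β n :=
  (summable_pi W β n).le_tsum j fun j' _ => mul_nonneg (by positivity) (pi_nonneg _ _ _ _)

theorem pi_of_le_act (j : ℕ) (W : Set (ℕ × List Bool)) (β : ℕ → ℝ) (n : ℕ) (h : n ≤ act j) :
    pi j W β n = (1 / 2) ^ n := by
  unfold pi
  rw [Finset.prod_congr rfl (g := fun _ => (1 / 2 : ℝ)) (fun k hk => ?_)]
  · simp
  · unfold rt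
    rw [if_pos (lt_of_lt_of_le (Finset.mem_range.1 hk) h)]

theorem Pot_of_le {W : Set (ℕ × List Bool)} {β : ℕ → ℝ} {n : ℕ} (h : n ≤ 7) :
    Pot W β n = 2 * (1 / 2) ^ n := by
  unfold Pot
  rw [tsum_congr (g := fun j : ℕ => (1 / 2 : ℝ) ^ j * (1 / 2) ^ n) (fun j => by
    rw [pi_of_le_act j W β n (h.trans (act_ge j))]), tsum_mul_right, tsum_geometric_two]

/-! ### Congruence -/

section Congr

variable {W W' : Set (ℕ × List Bool)} {β β' : ℕ → ℝ} {F : Finset (List Bool)} {i : ℕ}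

theorem bw_congr {k : ℕ} (hW : ∀ u, (k, u) ∈ W' ↔ (k, u) ∈ W) : bw W' k = bw W k := by
  unfold bw
  rw [decide_eq_decide]
  exact exists_congr fun u => and_congr_right fun _ => hW u

theorem pf_congr (hW : ∀ k < i, ∀ u, (k, u) ∈ W' ↔ (k, u) ∈ W) {n : ℕ} (hn : n ≤ i) :
    pf W' n = pf W n := by
  unfold pf
  refine List.map_congr_left fun k hk => bw_congr (hW k ?_)
  exact lt_of_lt_of_le (List.mem_range.1 hk) hn

theorem xin_congr (hW : ∀ k < i, ∀ u, (k, u) ∈ W' ↔ (k, u) ∈ W) {n : ℕ} (hn : n ≤ i) (b : Bool) :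
    xin W' n b = xin W n b := by
  unfold xin
  rw [pf_congr hW hn]

/-- the bets before `i` are determined by the answers on `F` -/
def DetU (W : Set (ℕ × List Bool)) (β : ℕ → ℝ) (F : Finset (List Bool)) (i : ℕ) : Prop :=
  ∀ j k, act j ≤ k → k < i → ∀ b, Det F (Orc W β) (en j) (xin W k b)

theorem rt_congr (hW : ∀ k < i, ∀ u, (k, u) ∈ W' ↔ (k, u) ∈ W) (hA : ∀ v ∈ F, Orc W' β' v = Orc W β v)
    {j k : ℕ} (hk : k ≤ i) (hd : act j ≤ k → ∀ b, Det F (Orc W β) (en j) (xin W k b)) (b : Bool) :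
    rt j W' β' k b = rt j W β k b := by
  unfold rt
  by_cases h : k < act j
  · rw [if_pos h, if_pos h]
  · rw [if_neg h, if_neg h]
    unfold rho
    have h1 : ∀ b, (en j).out (Orc W' β') (xin W' k b) = (en j).out (Orc W β) (xin W k b) := by
      intro b
      rw [xin_congr hW hk]
      exact hd (by omega) b _ hA
    rw [h1, h1, h1]

theorem pi_congr (hW : ∀ k < i, ∀ u, (k, u) ∈ W' ↔ (k, u) ∈ W) (hA : ∀ v ∈ F, Orc W' β' v = Orc W β v)
    (hd : DetU W β F i) (j : ℕ) {n : ℕ} (hn : n ≤ i) : pi j W' β' n = pi j W β n := by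
  unfold pi
  refine Finset.prod_congr rfl fun k hk => ?_
  have hk' := lt_of_lt_of_le (Finset.mem_range.1 hk) hn
  rw [bw_congr (hW k hk')]
  exact rt_congr hW hA hk'.le (fun h b => hd j k h hk' b) _

theorem Pot_congr (hW : ∀ k < i, ∀ u, (k, u) ∈ W' ↔ (k, u) ∈ W)
    (hA : ∀ v ∈ F, Orc W' β' v = Orc W β v) (hd : DetU W β F i) {n : ℕ} (hn : n ≤ i) :
    Pot W' β' n = Pot W β n := by
  unfold Pot
  exact tsum_congr fun j => by rw [pi_congr hW hA hd j hn]

theorem DetU.congr (hd : DetU W β F i) (hW : ∀ k < i, ∀ u, (k, u) ∈ W' ↔ (k, u) ∈ W)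
    (hA : ∀ v ∈ F, Orc W' β' v = Orc W β v) : DetU W' β' F i := by
  intro j k h1 h2 b
  rw [xin_congr hW h2.le]
  exact (hd j k h1 h2 b).congr hA

theorem DetU.mono {F' : Finset (List Bool)} (hd : DetU W β F i) (hF : F ⊆ F') : DetU W β F' i :=
  fun j k h1 h2 b => (hd j k h1 h2 b).mono hF

end Congr

end Pool.Agent.H274R3.Dim
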