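import Pool.Agent.H628R3.RO.Defs

/-!
# Resource-bounded dimension relative to an oracle

Oracles, polynomial time relative to an oracle (`IsFP`) and nondeterministic polynomial time
relative to an oracle (`IsNP`) are those of `Pool.Agent.H628R3.RO.Defs`.
-/

namespace Pool.Agent.H274R3.Dim

open Pool.Agent.NPC Pool.Agent.H628R3.RO

/-- The string number `i` in the list `[], 0, 1, 00, 01, 10, 11, 000, ...` of all bit strings (in
the order of length, and in dictionary order for every length). -/
def str (i : ℕ) : List Bool := (Nat.bits (i + 1)).reverse.tail

open Classical in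
/-- The prefix of length `n` of the characteristic sequence of the language `L`. -/
noncomputable def chi (L : Set (List Bool)) (n : ℕ) : List Bool :=
  (List.range n).map fun i => decide (str i ∈ L)

/-- `d` is an `s`-gale: a nonnegative function on bit strings with
`d w = 2 ^ (-s) * (d (w0) + d (w1))`. -/
def IsGale (s : ℝ) (d : List Bool → ℝ) : Prop :=
  (∀ w, 0 ≤ d w) ∧ ∀ w, d w = 2 ^ (-s) * (d (w ++ [false]) + d (w ++ [true]))

/-- `d` succeeds on the characteristic sequence of `L`: the upper limit of its values on the
prefixes of this sequence is infinite. -/
def Succeeds (d : List Bool → ℝ) (L : Set (List Bool)) : Prop :=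
  ∀ C : ℝ, ∃ᶠ n in Filter.atTop, C < d (chi L n)

/-- `d` is computable in polynomial time relative to the oracle `A`: there are rational
approximations `e r w` of `d w` with error at most `2 ^ (-r)`, which are computed in polynomial time
relative to `A`, where the input consists of `r` in unary and of `w`. -/
def IsPComputable (A : Oracle) (d : List Bool → ℝ) : Prop :=
  ∃ (e : ℕ → List Bool → ℚ) (F : List Bool → List Bool), IsFP A F ∧
    (∀ r w, F (pairBits (List.replicate r true) w) = bits (e r w)) ∧
    ∀ r w, |(e r w : ℝ) - d w| ≤ (1 / 2) ^ r

/-- The polynomial-time dimension relative to `A` of the class `C` of languages: the infimum of the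
`s ≥ 0` such that some `s`-gale which is computable in polynomial time relative to `A` succeeds on
all the languages in `C`. -/
noncomputable def dimP (A : Oracle) (C : Set (Set (List Bool))) : ℝ :=
  sInf {s : ℝ | 0 ≤ s ∧ ∃ d, IsGale s d ∧ IsPComputable A d ∧ ∀ L ∈ C, Succeeds d L}

/-- The class `NP` relative to `A`. -/
def classNP (A : Oracle) : Set (Set (List Bool)) := {L | IsNP A L}

end Pool.Agent.H274R3.Dim
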