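import Pool.Agent.H274R3.Dim.Stage

/-!
# The limit of the stages
-/

set_option autoImplicit false

namespace Pool.Agent.H274R3.Dim

open Pool.Agent.NPC Pool.Agent.H628R3.RO

/-- a state of the construction -/
structure State where
  W : Set (ℕ × List Bool)
  β : ℕ → ℝ
  F : Finset (List Bool)
  l : ℕ
  good : Good W β F l

theorem good_zero : Good ∅ (fun _ => 0) ∅ 3 := by
  refine ⟨le_rfl, ⟨by norm_num, by simp, by simp, ?_, ?_⟩, by simp, by simp, by simp, ?_⟩
  · intro j k h1 h2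
    have := act_ge j
    omega
  · intro m hm
    rw [Pot_of_le (by omega)]
    have : ((1 : ℝ) / 2) ^ (2 * m + 1) ≤ (1 / 2) ^ m :=
      pow_le_pow_of_le_one (by norm_num) (by norm_num) (by omega)
    linarith
  · intro k
    simp

instance : Countable (Polynomial ℕ) := by
  have : Function.Injective (fun p : Polynomial ℕ => (p.toFinsupp.coeff : ℕ →₀ ℕ)) := by
    intro p q h
    ext n
    exact DFunLike.congr_fun h n
  exact this.countable

instance : Nonempty (Alg × Polynomial ℕ) := ⟨⟨Classical.arbitrary Alg, 0⟩⟩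

/-- the requirements, every one infinitely often -/
noncomputable def req (n : ℕ) : Alg × Polynomial ℕ :=
  (exists_surjective_nat (Alg × Polynomial ℕ)).choose (Nat.unpair n).1

theorem req_inf (r : Alg × Polynomial ℕ) (N : ℕ) : ∃ n, N ≤ n ∧ req n = r := by
  obtain ⟨a, ha⟩ := (exists_surjective_nat (Alg × Polynomial ℕ)).choose_spec r
  refine ⟨Nat.pair a N, Nat.right_le_pair a N, ?_⟩
  unfold req
  rw [Nat.unpair_pair]
  exact ha

theorem exists_next (S : State) (n : ℕ) : ∃ S' : State, Ext S.W S.β S.F S.l S'.W S'.β S'.F S'.l ∧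
    ∃ l₁, S.l < l₁ ∧ Win (req n).1 (req n).2 l₁ S'.W S'.β S'.l := by
  obtain ⟨W', β', F', l', l₁, h1, h2, h3, h4⟩ := stage S.good (req n).1 (req n).2
  exact ⟨⟨W', β', F', l', h1⟩, h2, l₁, h3, h4⟩

/-- the sequence of the states -/
noncomputable def seq : ℕ → State
  | 0 => ⟨∅, fun _ => 0, ∅, 3, good_zero⟩
  | n + 1 => (exists_next (seq n) n).choose

theorem seq_ext (n : ℕ) : Ext (seq n).W (seq n).β (seq n).F (seq n).l
    (seq (n + 1)).W (seq (n + 1)).β (seq (n + 1)).F (seq (n + 1)).l :=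
  (exists_next (seq n) n).choose_spec.1

theorem seq_win (n : ℕ) : ∃ l₁, (seq n).l < l₁ ∧
    Win (req n).1 (req n).2 l₁ (seq (n + 1)).W (seq (n + 1)).β (seq (n + 1)).l :=
  (exists_next (seq n) n).choose_spec.2

theorem seq_l (n : ℕ) : n + 3 ≤ (seq n).l := by
  induction n with
  | zero => exact le_rfl
  | succ n ih => have := (seq_ext n).lt; omega

theorem seq_l_mono {i j : ℕ} (h : i ≤ j) : (seq i).l ≤ (seq j).l := by
  induction j, h using Nat.le_induction with
  | base => exact le_rfl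
  | succ j _ ih => exact ih.trans (seq_ext j).lt.le

theorem seq_F {i j : ℕ} (h : i ≤ j) : (seq i).F ⊆ (seq j).F := by
  induction j, h using Nat.le_induction with
  | base => exact Finset.Subset.refl _
  | succ j _ ih => exact ih.trans (seq_ext j).sub

theorem seq_agree {i j : ℕ} (h : i ≤ j) : ∀ v ∈ (seq i).F,
    Orc (seq j).W (seq j).β v = Orc (seq i).W (seq i).β v := by
  induction j, h using Nat.le_induction with
  | base => exact fun _ _ => rfl
  | succ j hj ih => exact fun v hv => ((seq_ext j).agree v (seq_F hj hv)).trans (ih v hv)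

theorem seq_mem {i j : ℕ} (h : i ≤ j) {k : ℕ} (u : List Bool) (hk : k + 1 < 2 ^ (seq i).l) :
    (k, u) ∈ (seq j).W ↔ (k, u) ∈ (seq i).W := by
  induction j, h using Nat.le_induction with
  | base => exact Iff.rfl
  | succ j hj ih =>
    rw [← ih]
    refine (seq_ext j).mem k u (hk.trans_le ?_)
    exact Nat.pow_le_pow_right (by norm_num) (seq_l_mono hj)

theorem seq_bet {i j : ℕ} (h : i ≤ j) {k : ℕ} (hk : k + 1 < 2 ^ ((seq i).l ^ 2)) :
    (seq j).β k = (seq i).β k := by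
  induction j, h using Nat.le_induction with
  | base => rfl
  | succ j hj ih =>
    rw [← ih]
    refine (seq_ext j).bet k (hk.trans_le ?_)
    exact Nat.pow_le_pow_right (by norm_num) (Nat.pow_le_pow_left (seq_l_mono hj) 2)

theorem lt_seq (k : ℕ) : k + 1 < 2 ^ (seq k).l := by
  have h1 := seq_l k
  have h2 : 2 ^ (k + 3) ≤ 2 ^ (seq k).l := Nat.pow_le_pow_right (by norm_num) h1
  have h3 : k + 3 < 2 ^ (k + 3) := Nat.lt_two_pow_self
  omega

theorem lt_seq2 (k : ℕ) : k + 1 < 2 ^ ((seq k).l ^ 2) := by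
  refine (lt_seq k).trans_le (Nat.pow_le_pow_right (by norm_num) ?_)
  have := seq_l k
  nlinarith

/-- the final set of witnesses -/
def Wi : Set (ℕ × List Bool) := {q | q ∈ (seq q.1).W}

/-- the final bets -/
noncomputable def βi (k : ℕ) : ℝ := (seq k).β k

theorem mem_Wi {j k : ℕ} (u : List Bool) (hk : k + 1 < 2 ^ (seq j).l) :
    (k, u) ∈ Wi ↔ (k, u) ∈ (seq j).W := by
  change (k, u) ∈ (seq k).W ↔ _
  rcases le_total j k with h | h
  · exact seq_mem h u hk
  · exact (seq_mem h u (lt_seq k)).symm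

theorem βi_eq {j k : ℕ} (hk : k + 1 < 2 ^ ((seq j).l ^ 2)) : βi k = (seq j).β k := by
  unfold βi
  rcases le_total j k with h | h
  · exact seq_bet h hk
  · exact (seq_bet h (lt_seq2 k)).symm

/-- the final oracle -/
noncomputable def Ai : Oracle := Orc Wi βi

theorem Ai_short {j : ℕ} {v : List Bool} (hv : v.length < (seq j).l) :
    Ai v = Orc (seq j).W (seq j).β v := by
  have h3 := (seq j).good.three
  have h4 : (seq j).l < 2 ^ (seq j).l := Nat.lt_two_pow_self
  have h5 : 2 ^ (seq j).l ≤ 2 ^ ((seq j).l ^ 2) := Nat.pow_le_pow_right (by norm_num) (by nlinarith)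
  refine Orc_congr (fun k u hku => mem_Wi u ?_) fun k hk => βi_eq (by omega)
  have h1 := length_code k u
  rw [← hku] at h1
  exact lg_lt_iff.1 (by omega)

theorem Ai_F {j : ℕ} {v : List Bool} (hv : v ∈ (seq j).F) :
    Ai v = Orc (seq j).W (seq j).β v := by
  rw [← seq_agree (Nat.le_max_left j v.length) v hv]
  refine Ai_short ?_
  have := seq_l (max j v.length)
  omega

theorem Ai_mem {j : ℕ} : ∀ k < 2 ^ (seq j).l - 1, ∀ u, (k, u) ∈ Wi ↔ (k, u) ∈ (seq j).W :=
  fun k hk u => mem_Wi u (by omega)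

theorem Pot_le (m : ℕ) : Pot Wi βi (2 * m + 1) ≤ 2 * (1 / 2) ^ m := by
  have h := lt_seq (2 * m + 1)
  rw [Pot_congr (F := (seq (2 * m + 1)).F) Ai_mem (fun v hv => Ai_F hv)
    (seq (2 * m + 1)).good.cnd.det (by omega)]
  exact (seq (2 * m + 1)).good.cnd.pot m (by omega)

theorem abs_βi (k : ℕ) : |βi k| ≤ 1 / 2 := (seq k).good.bet k

open Classical in
theorem gains (M : Alg) (p : Polynomial ℕ) (N : ℕ) : ∃ l₁, N ≤ l₁ ∧ 3 ≤ l₁ ∧
    (∀ k, 2 ^ l₁ ≤ k + 1 → k + 1 < 2 ^ (l₁ ^ 2) → βi k = 0) ∧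
    (3 / 2 : ℝ) ^ (2 ^ (l₁ ^ 2 - 2)) ≤
      ∏ k ∈ blk (l₁ ^ 2), fac (βi k) (decide (str k ∈ Acc M p Ai)) := by
  obtain ⟨n, hn, hr⟩ := req_inf (M, p) N
  obtain ⟨l₁, h1, h2⟩ := seq_win n
  rw [hr] at h2
  have h3 := seq_l n
  have h4 := h2.lt
  have h0 := (seq (n + 1)).good.three
  have h5 : 2 ^ (l₁ ^ 2 + 1) ≤ 2 ^ ((seq (n + 1)).l ^ 2) :=
    Nat.pow_le_pow_right (by norm_num) (by nlinarith)
  have h6 : 2 ^ (l₁ ^ 2) < 2 ^ (l₁ ^ 2 + 1) := Nat.pow_lt_pow_right (by norm_num) (by omega)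
  refine ⟨l₁, by omega, by omega, ?_, ?_⟩
  · intro k hk1 hk2
    rw [βi_eq (j := n + 1) (by omega)]
    exact h2.zero k hk1 hk2
  · have h7 := h2.gain Ai fun v hv => Ai_short hv
    refine h7.trans_eq (Finset.prod_congr rfl fun k hk => ?_)
    rw [βi_eq (j := n + 1)]
    have h8 := lt_pow_lg k
    rw [mem_blk.1 hk] at h8
    omega

end Pool.Agent.H274R3.Dim
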