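import Pool.Agent.H274R3.Dim.Upper

/-!
# The lower bound: a language in `NP` on which the gales with small parameter do not succeed
-/

set_option autoImplicit false

namespace Pool.Agent.H274R3.Dim

open Pool.Agent.NPC Pool.Agent.H628R3.RO

/-- the hard language -/
def Lh : Set (List Bool) :=
  {y | ∃ w : List Bool, w.length ≤ y.length ^ 3 ∧ Ai (false :: pairBits y w) = true}

theorem Lh_mem : Lh ∈ classNP Ai := by
  refine ⟨fun v => [Ai (false :: v)], Polynomial.X ^ 3, ?_, ?_⟩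
  · exact IsFP.tt (A := Ai) (Q := fun x => [false :: x]) (H := fun p => p.2)
      (NPC.Poly.cons (NPC.Poly.cons (NPC.Poly.const false) NPC.Poly.id) (NPC.Poly.const []))
      (NPC.Poly.snd NPC.Poly.id)
  · intro x
    simp only [Lh, Set.mem_ofPred_eq, Polynomial.eval_pow, Polynomial.eval_X, List.cons.injEq,
      and_true]

theorem str_mem_Lh (k : ℕ) : str k ∈ Lh ↔ bt Wi k := by
  unfold Lh bt
  rw [Set.mem_ofPred_eq, length_str]
  refine exists_congr fun w => and_congr_right fun _ => ?_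
  exact Orc_code Wi βi k w

theorem chi_Lh (n : ℕ) : chi Lh n = pf Wi n := by
  unfold chi pf bw
  refine List.map_congr_left fun k _ => ?_
  rw [decide_eq_decide]
  exact str_mem_Lh k

theorem pi_antitone (j : ℕ) (W : Set (ℕ × List Bool)) (β : ℕ → ℝ) {m n : ℕ} (h : m ≤ n) :
    pi j W β n ≤ pi j W β m := by
  induction n, h using Nat.le_induction with
  | base => exact le_rfl
  | succ n _ ih =>
    rw [pi_succ]
    exact (mul_le_of_le_one_right (pi_nonneg _ _ _ _) (rt_le_one _ _ _ _ _)).trans ih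

/-- one step -/
theorem rho_step {s : ℝ} (hs : 0 ≤ s) {d : List Bool → ℝ} (hd : IsGale s d) {K : Alg} {A : Oracle}
    {W : Set (ℕ × List Bool)} {k : ℕ} {g : Bool → ℚ}
    (hg : ∀ b, K.out A (xin W k b) = some (bits (g b)))
    (hg' : ∀ b, |(g b : ℝ) - d (pf W k ++ [b])| ≤ (1 / 2) ^ (2 * k + 4)) (b : Bool) :
    d (pf W k ++ [b]) + (1 / 2) ^ (k + 1) ≤
      2 ^ s * (d (pf W k) + (1 / 2) ^ k) * rho K A W k b * (1 + (1 / 2) ^ (k + 1)) := by
  obtain ⟨ε, hε⟩ : ∃ ε : ℝ, ε = (1 / 2) ^ (k + 3) := ⟨_, rfl⟩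
  have hε0 : 0 < ε := by rw [hε]; positivity
  have hε1 : ε ≤ 1 / 8 := by
    rw [hε, pow_add]
    have : ((1 : ℝ) / 2) ^ k ≤ 1 := pow_le_one₀ (by norm_num) (by norm_num)
    nlinarith
  have hpos : ∀ b, 0 < d (pf W k ++ [b]) + (1 / 2) ^ (k + 1) := fun b =>
    add_pos_of_nonneg_of_pos (hd.1 _) (by positivity)
  have hprod : ((1 : ℝ) / 2) ^ (2 * k + 4) = ε * (1 / 2) ^ (k + 1) := by
    rw [hε, ← pow_add]
    congr 1
    ring
  have hav : ∀ b, |av (K.out A (xin W k b)) k - (d (pf W k ++ [b]) + (1 / 2) ^ (k + 1))| ≤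
      ε * (d (pf W k ++ [b]) + (1 / 2) ^ (k + 1)) := by
    intro b
    have h1 := hd.1 (pf W k ++ [b])
    have h2 := abs_le.1 (hg' b)
    have h3 : (0 : ℝ) < (1 / 2) ^ (2 * k + 4) := by positivity
    rw [hg b]
    unfold av
    rw [vo_some]
    have h4 : |max (g b : ℝ) 0 - d (pf W k ++ [b])| ≤ (1 / 2) ^ (2 * k + 4) := by
      rw [abs_le]
      rcases le_total (g b : ℝ) 0 with h | h
      · rw [max_eq_right h]
        constructor <;> linarith
      · rw [max_eq_left h]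
        exact h2
    have h5 : max (g b : ℝ) 0 + (1 / 2) ^ (k + 1) - (d (pf W k ++ [b]) + (1 / 2) ^ (k + 1)) =
        max (g b : ℝ) 0 - d (pf W k ++ [b]) := by ring
    rw [h5]
    refine h4.trans ?_
    rw [hprod]
    have : 0 ≤ ε * d (pf W k ++ [b]) := mul_nonneg hε0.le h1
    linarith
  have hlo : ∀ b, (1 - ε) * (d (pf W k ++ [b]) + (1 / 2) ^ (k + 1)) ≤
      av (K.out A (xin W k b)) k := by
    intro b
    have := (abs_le.1 (hav b)).1
    linarith
  have hhi : ∀ b, av (K.out A (xin W k b)) k ≤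
      (1 + ε) * (d (pf W k ++ [b]) + (1 / 2) ^ (k + 1)) := by
    intro b
    have := (abs_le.1 (hav b)).2
    linarith
  -- the sum
  have hsum : d (pf W k ++ [false]) + (1 / 2) ^ (k + 1) + (d (pf W k ++ [true]) +
      (1 / 2) ^ (k + 1)) ≤ 2 ^ s * (d (pf W k) + (1 / 2) ^ k) := by
    have h1 : d (pf W k ++ [false]) + d (pf W k ++ [true]) = 2 ^ s * d (pf W k) := by
      rw [hd.2 (pf W k), ← mul_assoc, ← Real.rpow_add (by norm_num)]
      simp
    have h2 : (1 : ℝ) ≤ 2 ^ s := Real.one_le_rpow (by norm_num) hs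
    have h3 : ((1 : ℝ) / 2) ^ (k + 1) + (1 / 2) ^ (k + 1) = (1 / 2) ^ k := by ring
    have h4 : (0 : ℝ) < (1 / 2) ^ k := by positivity
    nlinarith
  obtain ⟨T, hT⟩ : ∃ T, T = 2 ^ s * (d (pf W k) + (1 / 2) ^ k) := ⟨_, rfl⟩
  rw [← hT] at hsum ⊢
  obtain ⟨S, hS⟩ : ∃ S, S = av (K.out A (xin W k false)) k + av (K.out A (xin W k true)) k :=
    ⟨_, rfl⟩
  have hS0 : 0 < S := by rw [hS]; exact add_pos (av_pos _ _) (av_pos _ _)
  have hST : S ≤ (1 + ε) * T := by
    rw [hS]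
    have h1 := hhi false
    have h2 := hhi true
    nlinarith
  have hT0 : 0 < T := by
    have h1 := hpos false
    have h2 := hpos true
    linarith
  have hρ : rho K A W k b = av (K.out A (xin W k b)) k / S := by
    rw [hS]
    rfl
  have h14 : (1 : ℝ) + (1 / 2) ^ (k + 1) = 1 + 4 * ε := by
    rw [hε]
    ring
  rw [hρ, h14]
  have hD := hpos b
  obtain ⟨D, hDe⟩ : ∃ D, D = d (pf W k ++ [b]) + (1 / 2) ^ (k + 1) := ⟨_, rfl⟩
  have hlb := hlo b
  rw [← hDe] at hD hlb ⊢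
  obtain ⟨a, ha⟩ : ∃ a, a = av (K.out A (xin W k b)) k := ⟨_, rfl⟩
  rw [← ha] at hlb ⊢
  have ha0 : 0 < a := by rw [ha]; exact av_pos _ _
  -- goal: `D ≤ T * (a / S) * (1 + 4 ε)`
  have h5 : D * S ≤ T * a * (1 + 4 * ε) := by
    have h6 : D * S ≤ D * ((1 + ε) * T) := mul_le_mul_of_nonneg_left hST hD.le
    have h7 : T * ((1 - ε) * D) ≤ T * a := mul_le_mul_of_nonneg_left hlb hT0.le
    have h8 : T * ((1 - ε) * D) * (1 + 4 * ε) ≤ T * a * (1 + 4 * ε) :=
      mul_le_mul_of_nonneg_right h7 (by linarith)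
    have h9 : D * ((1 + ε) * T) ≤ T * ((1 - ε) * D) * (1 + 4 * ε) := by
      have h10 : 0 ≤ T * D := (mul_pos hT0 hD).le
      have h11 : 1 + ε ≤ (1 - ε) * (1 + 4 * ε) := by nlinarith
      have h12 := mul_le_mul_of_nonneg_left h11 h10
      linarith
    linarith
  have h6 : T * (a / S) * (1 + 4 * ε) = T * a * (1 + 4 * ε) / S := by ring
  rw [h6, le_div_iff₀ hS0]
  exact h5

theorem lower {s : ℝ} (hs : 0 ≤ s) {d : List Bool → ℝ} (hd : IsGale s d)
    (hc : IsPComputable Ai d) (hsuc : Succeeds d Lh) : 1 / 2 ≤ s := by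
  by_contra hlt
  push Not at hlt
  obtain ⟨e, F, ⟨M, hM⟩, hF, he⟩ := hc
  obtain ⟨j, hj⟩ := en_surj M
  have hg : ∀ k b, (en j).out (Orc Wi βi) (xin Wi k b) =
      some (bits (e (2 * k + 4) (pf Wi k ++ [b]))) := by
    intro k b
    rw [hj]
    change M.out Ai _ = _
    rw [hM, xin, hF]
  obtain ⟨D, hD⟩ : ∃ D : ℕ → ℝ, D = fun n => d (pf Wi n) + (1 / 2) ^ n := ⟨_, rfl⟩
  have hD0 : ∀ n, 0 ≤ D n := by
    intro n
    rw [hD]
    exact add_nonneg (hd.1 _) (by positivity)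
  have hstep : ∀ k, act j ≤ k →
      D (k + 1) ≤ 2 ^ s * D k * rt j Wi βi k (bw Wi k) * (1 + (1 / 2) ^ (k + 1)) := by
    intro k hk
    have h1 := rho_step hs hd (hg k) (fun b => he _ _) (bw Wi k)
    rw [hD]
    simp only
    rw [pf_succ]
    unfold rt
    rw [if_neg (by omega)]
    exact h1
  -- the invariant
  obtain ⟨K, hK⟩ : ∃ K : ℝ, K = D (act j) * 2 ^ act j * Real.exp ((1 / 2) ^ act j) := ⟨_, rfl⟩
  have hK0 : 0 ≤ K := by
    rw [hK]
    have := hD0 (act j)
    positivity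
  have hinv : ∀ n, act j ≤ n →
      D n ≤ K * 2 ^ (s * n) * pi j Wi βi n * Real.exp (-(1 / 2) ^ n) := by
    intro n hn
    induction n, hn using Nat.le_induction with
    | base =>
      rw [pi_of_le_act j Wi βi (act j) le_rfl, hK]
      have h1 : D (act j) * 2 ^ act j * Real.exp ((1 / 2) ^ act j) * 2 ^ (s * (act j : ℝ)) *
          (1 / 2) ^ act j * Real.exp (-(1 / 2) ^ act j) = D (act j) * 2 ^ (s * (act j : ℝ)) := by
        have e1 : (2 : ℝ) ^ act j * (1 / 2) ^ act j = 1 := by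
          rw [← mul_pow]
          norm_num
        have e2 : Real.exp ((1 / 2) ^ act j) * Real.exp (-(1 / 2) ^ act j) = 1 := by
          rw [← Real.exp_add]
          simp
        calc _ = D (act j) * 2 ^ (s * (act j : ℝ)) * (2 ^ act j * (1 / 2) ^ act j) *
            (Real.exp ((1 / 2) ^ act j) * Real.exp (-(1 / 2) ^ act j)) := by ring
          _ = _ := by rw [e1, e2]; ring
      rw [h1]
      refine le_mul_of_one_le_right (hD0 _) ?_
      exact Real.one_le_rpow (by norm_num) (by positivity)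
    | succ n hn ih =>
      refine (hstep n hn).trans ?_
      rw [pi_succ]
      have h1 : (1 : ℝ) + (1 / 2) ^ (n + 1) ≤ Real.exp ((1 / 2) ^ (n + 1)) := by
        rw [add_comm]
        exact Real.add_one_le_exp _
      have h2 := rt_nonneg j Wi βi n (bw Wi n)
      have h3 := pi_nonneg j Wi βi n
      calc 2 ^ s * D n * rt j Wi βi n (bw Wi n) * (1 + (1 / 2) ^ (n + 1))
          ≤ 2 ^ s * (K * 2 ^ (s * n) * pi j Wi βi n * Real.exp (-(1 / 2) ^ n)) *
            rt j Wi βi n (bw Wi n) * Real.exp ((1 / 2) ^ (n + 1)) := by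
              gcongr
        _ = K * (2 ^ s * 2 ^ (s * n)) * (pi j Wi βi n * rt j Wi βi n (bw Wi n)) *
            (Real.exp (-(1 / 2) ^ n) * Real.exp ((1 / 2) ^ (n + 1))) := by ring
        _ = K * 2 ^ (s * ((n + 1 : ℕ) : ℝ)) * (pi j Wi βi n * rt j Wi βi n (bw Wi n)) *
            Real.exp (-(1 / 2) ^ (n + 1)) := by
              rw [← Real.rpow_add (by norm_num), ← Real.exp_add]
              congr 2
              · congr 2
                push_cast
                ring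
              · rw [pow_succ]
                ring
  -- the bound
  have hbound : ∀ n, act j ≤ n → d (chi Lh n) ≤ K * 2 ^ (j + 2) := by
    intro n hn
    have h7 := act_ge j
    obtain ⟨m, hm⟩ : ∃ m, m = (n - 1) / 2 := ⟨_, rfl⟩
    have h1 : pi j Wi βi n ≤ pi j Wi βi (2 * m + 1) := pi_antitone _ _ _ (by omega)
    have h2 := pi_le_Pot j Wi βi (2 * m + 1)
    have h3 := Pot_le m
    have h4 : pi j Wi βi n ≤ 2 ^ j * (2 * (1 / 2) ^ m) := by
      have e1 : (2 : ℝ) ^ j * (1 / 2) ^ j = 1 := by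
        rw [← mul_pow]
        norm_num
      calc pi j Wi βi n ≤ pi j Wi βi (2 * m + 1) := h1
        _ = 2 ^ j * ((1 / 2) ^ j * pi j Wi βi (2 * m + 1)) := by
            rw [← mul_assoc, e1, one_mul]
        _ ≤ 2 ^ j * (2 * (1 / 2) ^ m) :=
            mul_le_mul_of_nonneg_left (h2.trans h3) (by positivity)
    have h5 := hinv n hn
    have h6 : Real.exp (-(1 / 2) ^ n) ≤ 1 := by
      rw [Real.exp_le_one_iff]
      have : (0 : ℝ) < (1 / 2) ^ n := by positivity
      linarith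
    have h8 : (2 : ℝ) ^ (s * n) ≤ 2 ^ (m + 1) := by
      rw [← Real.rpow_natCast]
      apply Real.rpow_le_rpow_of_exponent_le (by norm_num)
      have h9 : n ≤ 2 * (m + 1) := by omega
      have h10 : (n : ℝ) ≤ 2 * ((m + 1 : ℕ) : ℝ) := by exact_mod_cast h9
      have h11 : (0 : ℝ) ≤ n := Nat.cast_nonneg _
      nlinarith
    have h12 := pi_nonneg j Wi βi n
    rw [chi_Lh]
    calc d (pf Wi n) ≤ D n := by
          rw [hD]
          simp only
          have : (0 : ℝ) < (1 / 2) ^ n := by positivity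
          linarith
      _ ≤ K * 2 ^ (s * n) * pi j Wi βi n * Real.exp (-(1 / 2) ^ n) := h5
      _ ≤ K * 2 ^ (m + 1) * (2 ^ j * (2 * (1 / 2) ^ m)) * 1 := by gcongr
      _ = K * 2 ^ (j + 2) * (2 ^ m * (1 / 2) ^ m) := by ring
      _ = K * 2 ^ (j + 2) := by
          rw [← mul_pow]
          norm_num
  have h1 := hsuc (K * 2 ^ (j + 2))
  rw [Filter.frequently_atTop] at h1
  obtain ⟨n, hn, hn'⟩ := h1 (act j)
  exact absurd (hbound n hn) (not_le.2 hn')

theorem main : ∃ A : Oracle, 1 / 2 ≤ dimP A (classNP A) ∧ dimP A (classNP A) ≤ 31 / 32 := by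
  refine ⟨Ai, ?_, ?_⟩
  · refine le_csInf ⟨31 / 32, by norm_num, gale βi, gale_isGale abs_βi, gale_comp abs_βi, upper⟩ ?_
    rintro s ⟨hs, d, h1, h2, h3⟩
    exact lower hs h1 h2 (h3 Lh Lh_mem)
  · exact csInf_le ⟨0, fun s hs => hs.1⟩
      ⟨by norm_num, gale βi, gale_isGale abs_βi, gale_comp abs_βi, upper⟩

end Pool.Agent.H274R3.Dim
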