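import Pool.Agent.H274R3.Dim.Step

/-!
# One stage of the construction
-/

set_option autoImplicit false

namespace Pool.Agent.H274R3.Dim

open Pool.Agent.NPC Pool.Agent.H628R3.RO

/-- the language accepted by the verifier `M` with certificates bounded by `p` -/
def Acc (M : Alg) (p : Polynomial ℕ) (A : Oracle) : Set (List Bool) :=
  {z | ∃ c : List Bool, c.length ≤ p.eval z.length ∧ M.out A (pairBits z c) = some [true]}

/-- the indices of the strings of length `n` -/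
def blk (n : ℕ) : Finset ℕ := Finset.Ico (2 ^ n - 1) (2 ^ (n + 1) - 1)

theorem mem_blk {n k : ℕ} : k ∈ blk n ↔ lg k = n := by
  unfold blk
  rw [Finset.mem_Ico]
  have h1 := @le_lg_iff k n
  have h2 := @lg_lt_iff k (n + 1)
  have h3 : 1 ≤ 2 ^ n := Nat.one_le_two_pow
  have h4 : 1 ≤ 2 ^ (n + 1) := Nat.one_le_two_pow
  omega

theorem card_blk (n : ℕ) : (blk n).card = 2 ^ n := by
  unfold blk
  rw [Nat.card_Ico, pow_succ]
  have h3 : 1 ≤ 2 ^ n := Nat.one_le_two_pow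
  omega

/-- The situation before the strings of length `l` are treated. -/
structure Good (W : Set (ℕ × List Bool)) (β : ℕ → ℝ) (F : Finset (List Bool)) (l : ℕ) : Prop where
  three : 3 ≤ l
  cnd : Cnd W β F (2 ^ l - 1)
  card : F.card ≤ 2 * (2 ^ l - 1) * Wb (2 ^ l - 1)
  supp : ∀ k u, 2 ^ l ≤ k + 1 → (k, u) ∉ W
  bet0 : ∀ k, 2 ^ l ≤ k + 1 → β k = 0
  bet : ∀ k, |β k| ≤ 1 / 2

/-- the second situation extends the first one -/
structure Ext (W : Set (ℕ × List Bool)) (β : ℕ → ℝ) (F : Finset (List Bool)) (l : ℕ)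
    (W' : Set (ℕ × List Bool)) (β' : ℕ → ℝ) (F' : Finset (List Bool)) (l' : ℕ) : Prop where
  lt : l < l'
  sub : F ⊆ F'
  agree : ∀ v ∈ F, Orc W' β' v = Orc W β v
  mem : ∀ k u, k + 1 < 2 ^ l → ((k, u) ∈ W' ↔ (k, u) ∈ W)
  bet : ∀ k, k + 1 < 2 ^ (l ^ 2) → β' k = β k

open Classical in
/-- the stage wins against the verifier `M` with the polynomial `p` at length `l₁ ^ 2` -/
structure Win (M : Alg) (p : Polynomial ℕ) (l₁ : ℕ) (W' : Set (ℕ × List Bool)) (β' : ℕ → ℝ)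
    (l' : ℕ) : Prop where
  lt : l₁ ^ 2 < l'
  zero : ∀ k, 2 ^ l₁ ≤ k + 1 → k + 1 < 2 ^ (l₁ ^ 2) → β' k = 0
  gain : ∀ A' : Oracle, (∀ v : List Bool, v.length < l' → A' v = Orc W' β' v) →
    (3 / 2 : ℝ) ^ (2 ^ (l₁ ^ 2 - 2)) ≤
      ∏ k ∈ blk (l₁ ^ 2), fac (β' k) (decide (str k ∈ Acc M p A'))

theorem pred_eq {l : ℕ} (hl : 1 ≤ l) : 2 ^ l - 1 = 2 * (2 ^ (l - 1) - 1) + 1 := by
  obtain ⟨l, rfl⟩ : ∃ l', l = l' + 1 := ⟨l - 1, by omega⟩
  have h : 1 ≤ 2 ^ l := Nat.one_le_two_pow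
  rw [Nat.add_sub_cancel, pow_succ]
  omega

/-- filling from length `l` to length `l'` -/
theorem fill_len {W : Set (ℕ × List Bool)} {β : ℕ → ℝ} {F : Finset (List Bool)} {l l' : ℕ} (t : ℕ)
    (ht : t < 2) (hl : 3 ≤ l) (hll : l < l') (hc : Cnd W β F (2 ^ l - 1))
    (hno : ∀ k u, 2 ^ l ≤ k + 1 → k % 2 = t → (k, u) ∉ W) :
    ∃ (W' : Set (ℕ × List Bool)) (F' : Finset (List Bool)), Cnd W' β F' (2 ^ l' - 1) ∧
      F ⊆ F' ∧ F'.card ≤ 2 * (2 ^ l' - 1) * Wb (2 ^ l' - 1) ∧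
      (∀ v ∈ F, Orc W' β v = Orc W β v) ∧
      (∀ k u, (k + 1 < 2 ^ l ∨ 2 ^ l' ≤ k + 1 ∨ k % 2 ≠ t) →
        ((k, u) ∈ W' ↔ (k, u) ∈ W)) := by
  have h1 := pred_eq (show 1 ≤ l by omega)
  have h2 := pred_eq (show 1 ≤ l' by omega)
  have h3 : 2 ^ (l - 1) < 2 ^ (l' - 1) := Nat.pow_lt_pow_right (by norm_num) (by omega)
  have h4 : 1 ≤ 2 ^ (l - 1) := Nat.one_le_two_pow
  have h5 : 1 ≤ 2 ^ l := Nat.one_le_two_pow
  have h6 : 1 ≤ 2 ^ l' := Nat.one_le_two_pow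
  rw [h1] at hc
  obtain ⟨W', F', a1, a2, a3, a4, a5⟩ := fill t ht hc (fun k u hk hkt => hno k u (by omega) hkt)
    (2 ^ (l' - 1) - 1 - (2 ^ (l - 1) - 1))
  have e : 2 ^ (l - 1) - 1 + (2 ^ (l' - 1) - 1 - (2 ^ (l - 1) - 1)) = 2 ^ (l' - 1) - 1 := by omega
  rw [e, ← h2] at a1 a3 a5
  exact ⟨W', F', a1, a2, a3 (by omega), a4, fun k u hk => a5 k u (by omega)⟩

theorem pow_sub_two (n : ℕ) (hn : 2 ≤ n) : 2 ^ n = 4 * 2 ^ (n - 2) := by
  obtain ⟨n, rfl⟩ : ∃ n', n = n' + 2 := ⟨n - 2, by omega⟩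
  rw [Nat.add_sub_cancel]
  ring

open Classical in
theorem gain_A {S B : Finset ℕ} {q : ℕ} {β : ℕ → ℝ} {b : ℕ → Bool} (hS : S ⊆ B) (hq : q ≤ S.card)
    (h1 : ∀ k ∈ S, β k = 1 / 2 ∧ b k = true) (h2 : ∀ k ∈ B, k ∉ S → β k = 0) :
    (3 / 2 : ℝ) ^ q ≤ ∏ k ∈ B, fac (β k) (b k) := by
  have h3 : ∏ k ∈ B, fac (β k) (b k) = ∏ k ∈ S, (3 / 2 : ℝ) := by
    rw [← Finset.prod_subset hS (f := fun k => fac (β k) (b k))]
    · refine Finset.prod_congr rfl fun k hk => ?_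
      rw [(h1 k hk).1, (h1 k hk).2]
      norm_num [fac]
    · intro k hk hkS
      rw [h2 k hk hkS]
      unfold fac
      split_ifs <;> norm_num
  rw [h3, Finset.prod_const]
  exact pow_le_pow_right₀ (by norm_num) hq

open Classical in
theorem gain_B {B : Finset ℕ} {q : ℕ} {β : ℕ → ℝ} {b : ℕ → Bool} (hB : B.card = 4 * q)
    (hq : (B.filter fun k => b k = true).card ≤ q)
    (h1 : ∀ k ∈ B, β k = -(1 / 2)) :
    (3 / 2 : ℝ) ^ q ≤ ∏ k ∈ B, fac (β k) (b k) := by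
  have h2 : ∀ k ∈ B, fac (β k) (b k) = if b k = true then (1 / 2 : ℝ) else 3 / 2 := by
    intro k hk
    rw [h1 k hk]
    unfold fac
    split_ifs <;> norm_num
  rw [Finset.prod_congr rfl h2, Finset.prod_ite, Finset.prod_const, Finset.prod_const]
  have h3 := Finset.card_filter_add_card_filter_not (s := B) (p := fun k => b k = true)
  set a := (B.filter fun k => b k = true).card
  set a' := (B.filter fun k => ¬ b k = true).card
  have h4 : (1 / 2 : ℝ) ^ q ≤ (1 / 2) ^ a :=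
    pow_le_pow_of_le_one (by norm_num) (by norm_num) hq
  have h5 : (3 / 2 : ℝ) ^ (3 * q) ≤ (3 / 2) ^ a' := pow_le_pow_right₀ (by norm_num) (by omega)
  calc (3 / 2 : ℝ) ^ q ≤ (27 / 16) ^ q := pow_le_pow_left₀ (by norm_num) (by norm_num) q
    _ = (1 / 2) ^ q * (3 / 2) ^ (3 * q) := by
        rw [pow_mul, ← mul_pow]
        norm_num
    _ ≤ (1 / 2) ^ a * (3 / 2) ^ a' := by gcongr

open Classical in
theorem stage {W : Set (ℕ × List Bool)} {β : ℕ → ℝ} {F : Finset (List Bool)} {l : ℕ}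
    (hg : Good W β F l) (M : Alg) (p : Polynomial ℕ) :
    ∃ (W' : Set (ℕ × List Bool)) (β' : ℕ → ℝ) (F' : Finset (List Bool)) (l' l₁ : ℕ),
      Good W' β' F' l' ∧ Ext W β F l W' β' F' l' ∧ l < l₁ ∧ Win M p l₁ W' β' l' := by
  have hl := hg.three
  -- the choice of the length
  obtain ⟨a, ha⟩ := grow2 (M.p.comp (2 * Polynomial.X ^ 2 + 1 + p.comp (Polynomial.X ^ 2)))
  obtain ⟨b, hb⟩ := grow2 ((qb M).comp (2 * Polynomial.X ^ 2 + 1 + p.comp (Polynomial.X ^ 2)))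
  obtain ⟨l₁, hl₁⟩ : ∃ l₁, l₁ = l + 1 + a + b := ⟨_, rfl⟩
  obtain ⟨n, hn⟩ : ∃ n, n = l₁ ^ 2 := ⟨_, rfl⟩
  obtain ⟨X, hX⟩ : ∃ X, X = 2 * n + 1 + p.eval n := ⟨_, rfl⟩
  have ha' : M.p.eval X < 2 ^ l₁ := by
    have := ha l₁ (by omega)
    simp only [Polynomial.eval_comp, Polynomial.eval_add, Polynomial.eval_mul, Polynomial.eval_pow,
      Polynomial.eval_X, Polynomial.eval_one, Polynomial.eval_ofNat] at this
    rw [← hn, ← hX] at this
    exact this
  have hb' : (qb M).eval X < 2 ^ l₁ := by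
    have := hb l₁ (by omega)
    simp only [Polynomial.eval_comp, Polynomial.eval_add, Polynomial.eval_mul, Polynomial.eval_pow,
      Polynomial.eval_X, Polynomial.eval_one, Polynomial.eval_ofNat] at this
    rw [← hn, ← hX] at this
    exact this
  obtain ⟨B, hB⟩ : ∃ B, B = (qb M).eval X := ⟨_, rfl⟩
  rw [← hB] at hb'
  obtain ⟨l', hl'⟩ : ∃ l', l' = B + n + l₁ + 2 := ⟨_, rfl⟩
  have hl₁n : l₁ + 2 ≤ n := by rw [hn]; nlinarith
  have hll1 : l < l₁ := by omega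
  have hpl : 2 ^ l ≤ 2 ^ l₁ := Nat.pow_le_pow_right (by norm_num) hll1.le
  have hpn : 2 ^ l₁ ≤ 2 ^ n := Nat.pow_le_pow_right (by norm_num) (by omega)
  have hpn1 : 2 ^ (n + 1) ≤ 2 ^ l' := Nat.pow_le_pow_right (by norm_num) (by omega)
  have hpn2 : 2 ^ n ≤ 2 ^ (n + 1) := Nat.pow_le_pow_right (by norm_num) (by omega)
  have hlgi : lg (2 ^ l₁ - 1) = l₁ := lg_pow l₁
  have hone : 1 ≤ 2 ^ l₁ := Nat.one_le_two_pow
  have hone' : 1 ≤ 2 ^ l' := Nat.one_le_two_pow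
  have honel : 1 ≤ 2 ^ l := Nat.one_le_two_pow
  have hl2n : 2 ^ (l ^ 2) ≤ 2 ^ n := by
    rw [hn]
    exact Nat.pow_le_pow_right (by norm_num) (Nat.pow_le_pow_left hll1.le 2)
  -- lengths of inputs
  have hlenx : ∀ k ∈ blk n, ∀ c : List Bool, c.length ≤ p.eval (str k).length →
      (pairBits (str k) c).length ≤ X := by
    intro k hk c hc
    rw [length_str, mem_blk.1 hk] at hc
    rw [length_pairBits, length_str, mem_blk.1 hk, hX]
    omega
  have hqlen : ∀ (A : Oracle), ∀ k ∈ blk n, ∀ c : List Bool, c.length ≤ p.eval (str k).length →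
      ∀ q ∈ qs M A (pairBits (str k) c), q.length ≤ B := by
    intro A k hk c hc q hq
    refine (qs_len _ _ _ q hq).trans ?_
    rw [hB]
    exact eval_mono' _ (hlenx k hk c hc)
  have hshort : ∀ (A A' : Oracle), (∀ v : List Bool, v.length ≤ B → A' v = A v) →
      ∀ k ∈ blk n, ∀ c : List Bool, c.length ≤ p.eval (str k).length →
      M.out A' (pairBits (str k) c) = M.out A (pairBits (str k) c) := by
    intro A A' h k hk c hc
    refine out_eq_of_short _ _ _ _ fun v hv => h v (hv.trans ?_)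
    rw [hB]
    exact eval_mono' _ (hlenx k hk c hc)
  have hacc : ∀ (A A' : Oracle), (∀ v : List Bool, v.length ≤ B → A' v = A v) →
      ∀ k ∈ blk n, (str k ∈ Acc M p A' ↔ str k ∈ Acc M p A) := by
    intro A A' h k hk
    refine exists_congr fun c => and_congr_right fun hc => ?_
    rw [hshort A A' h k hk c hc]
  -- first filling
  obtain ⟨W₁, F₁, c1, c2, c3, c4, c5⟩ := fill_len (l' := l₁) 0 (by norm_num) hl hll1 hg.cnd
    (fun k u hk _ => hg.supp k u hk)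
  have hsupp₁ : ∀ k u, 2 ^ l₁ ≤ k + 1 → (k, u) ∉ W₁ := fun k u hk => by
    rw [c5 k u (Or.inr (Or.inl hk))]
    exact hg.supp k u (by omega)
  have hlen₁ : ∀ v ∈ F₁, v.length < 2 ^ n := by
    intro v hv
    have := c1.len v hv
    rwa [hlgi, ← hn] at this
  -- changing the bets at length `n`
  have hbchg : ∀ β₂ : ℕ → ℝ, (∀ k, k ∉ blk n → β₂ k = β k) → ∀ k, k + 1 < 2 ^ n → β₂ k = β k := by
    intro β₂ h k hk
    refine h k fun hk' => ?_
    have h1 := mem_blk.1 hk'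
    have h2 := pow_lg_le k
    rw [h1] at h2
    omega
  -- the common end
  have key : ∀ (t : ℕ) (ht : t < 2) (W₂ : Set (ℕ × List Bool)) (β₂ : ℕ → ℝ)
      (F₂ : Finset (List Bool)), F₁ ⊆ F₂ → F₂.card ≤ (2 * (2 ^ l₁ - 1) + 1) * Wb (2 ^ l₁ - 1) →
      (∀ v ∈ F₂, v.length < 2 ^ n) →
      (∀ v ∈ F₁, Orc W₂ β₂ v = Orc W₁ β v) →
      (∀ k u, k + 1 < 2 ^ l₁ → ((k, u) ∈ W₂ ↔ (k, u) ∈ W₁)) →
      (∀ k u, 2 ^ l₁ ≤ k + 1 → k % 2 = t → (k, u) ∉ W₂) →
      (∀ k u, 2 ^ l' ≤ k + 1 → (k, u) ∉ W₂) →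
      (∀ k, k ∉ blk n → β₂ k = β k) → (∀ k, |β₂ k| ≤ 1 / 2) →
      ∃ (W₃ : Set (ℕ × List Bool)) (F₃ : Finset (List Bool)), Good W₃ β₂ F₃ l' ∧
        Ext W β F l W₃ β₂ F₃ l' ∧ (∀ v ∈ F₂, Orc W₃ β₂ v = Orc W₂ β₂ v) ∧
        (∀ k u, (k + 1 < 2 ^ l₁ ∨ k % 2 ≠ t) → ((k, u) ∈ W₃ ↔ (k, u) ∈ W₂)) := by
    intro t ht W₂ β₂ F₂ d1 d2 d3 d4 d5 d6 d7 d8 d9
    have hW12 : ∀ k < 2 ^ l₁ - 1, ∀ u, (k, u) ∈ W₂ ↔ (k, u) ∈ W₁ := fun k hk u =>
      d5 k u (by omega)
    have hc2 : Cnd W₂ β₂ F₂ (2 ^ l₁ - 1) := by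
      refine ⟨c1.ge, ?_, d2, (c1.det.congr hW12 d4).mono d1, ?_⟩
      · rw [hlgi, ← hn]
        exact d3
      · intro m hm
        rw [Pot_congr hW12 d4 c1.det hm]
        exact c1.pot m hm
    obtain ⟨W₃, F₃, e1, e2, e3, e4, e5⟩ := fill_len (l' := l') t ht (by omega) (by omega) hc2 d6
    have hb0 : ∀ k, 2 ^ l' ≤ k + 1 → β₂ k = 0 := by
      intro k hk
      rw [d8 k fun hk' => ?_]
      · exact hg.bet0 k (by omega)
      · have h1 := mem_blk.1 hk'
        have h2 := lt_pow_lg k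
        rw [h1] at h2
        omega
    refine ⟨W₃, F₃, ⟨by omega, e1, e3, ?_, hb0, d9⟩,
      ⟨by omega, (c2.trans d1).trans e2, ?_, ?_, ?_⟩, e4, ?_⟩
    · intro k u hk
      rw [e5 k u (Or.inr (Or.inl hk))]
      exact d7 k u hk
    · intro v hv
      rw [e4 v (d1 (c2 hv)), d4 v (c2 hv), c4 v hv]
    · intro k u hk
      rw [e5 k u (Or.inl (by omega)), d5 k u (by omega), c5 k u (Or.inl hk)]
    · intro k hk
      exact hbchg β₂ d8 k (by omega)
    · intro k u hk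
      refine e5 k u ?_
      rcases hk with hk | hk
      · exact Or.inl hk
      · exact Or.inr (Or.inr hk)
  have hzero : ∀ β₂ : ℕ → ℝ, (∀ k, k ∉ blk n → β₂ k = β k) →
      ∀ k, 2 ^ l₁ ≤ k + 1 → k + 1 < 2 ^ (l₁ ^ 2) → β₂ k = 0 := by
    intro β₂ h k h1 h2
    rw [← hn] at h2
    rw [hbchg β₂ h k h2]
    exact hg.bet0 k (by omega)
  have hnq : 2 ^ n = 4 * 2 ^ (n - 2) := pow_sub_two n (by omega)
  -- the two cases
  by_cases hcase : ∃ Ws : Set (ℕ × List Bool),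
      (∀ k u, k + 1 < 2 ^ l₁ → ((k, u) ∈ Ws ↔ (k, u) ∈ W₁)) ∧
      (∀ k u, 2 ^ l₁ ≤ k + 1 → k % 2 = 1 → (k, u) ∉ Ws) ∧
      (∀ v ∈ F₁, Orc Ws β v = Orc W₁ β v) ∧
      2 ^ (n - 2) ≤ ((blk n).filter fun k => str k ∈ Acc M p (Orc Ws β)).card
  · obtain ⟨Ws, f1, f2, f3, f4⟩ := hcase
    set S := (blk n).filter fun k => str k ∈ Acc M p (Orc Ws β) with hS
    have hSsub : S ⊆ blk n := Finset.filter_subset _ _
    have hSmem : ∀ k ∈ S, ∃ c : List Bool, c.length ≤ p.eval (str k).length ∧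
        M.out (Orc Ws β) (pairBits (str k) c) = some [true] := fun k hk => (Finset.mem_filter.1 hk).2
    choose! c hc1 hc2 using hSmem
    set W₂ : Set (ℕ × List Bool) := {q | q ∈ Ws ∧ q.1 + 1 < 2 ^ l'} with hW₂
    set β₂ : ℕ → ℝ := fun k => if k ∈ S then 1 / 2 else β k with hβ₂
    set F₂ := F₁ ∪ S.biUnion fun k => qs M (Orc Ws β) (pairBits (str k) (c k)) with hF₂
    have hβ₂n : ∀ k, k ∉ blk n → β₂ k = β k := by
      intro k hk
      rw [hβ₂]
      simp only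
      rw [if_neg fun h => hk (hSsub h)]
    have hshort₂ : ∀ v : List Bool, v.length ≤ B → Orc W₂ β₂ v = Orc Ws β v := by
      intro v hv
      refine Orc_congr (fun k u hku => ?_) fun k hk => hbchg β₂ hβ₂n k (by omega)
      rw [hW₂, Set.mem_ofPred_eq]
      have h1 := length_code k u
      rw [← hku] at h1
      have h2 : k + 1 < 2 ^ l' := lg_lt_iff.1 (by omega)
      exact ⟨fun h => h.1, fun h => ⟨h, h2⟩⟩
    have hF₁₂ : ∀ v ∈ F₁, Orc W₂ β₂ v = Orc W₁ β v := by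
      intro v hv
      have h1 := hlen₁ v hv
      refine Orc_congr (fun k u hku => ?_) fun k hk => hbchg β₂ hβ₂n k (by omega)
      have h2 : (k, u) ∈ Ws ↔ (k, u) ∈ W₁ := by
        have h3 := f3 v hv
        rw [hku] at h3
        rw [← Orc_code Ws β k u, ← Orc_code W₁ β k u, h3]
      rw [hW₂, Set.mem_ofPred_eq, ← h2]
      constructor
      · exact fun h => h.1
      · intro h
        refine ⟨h, ?_⟩
        by_contra h4
        exact hsupp₁ k u (by omega) (h2.1 h)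
    obtain ⟨W₃, F₃, g1, g2, g3, g4⟩ := key 1 (by norm_num) W₂ β₂ F₂ Finset.subset_union_left (by
        have h1 : F₂.card ≤ F₁.card +
            (S.biUnion fun k => qs M (Orc Ws β) (pairBits (str k) (c k))).card :=
          Finset.card_union_le _ _
        have h2 : (S.biUnion fun k => qs M (Orc Ws β) (pairBits (str k) (c k))).card ≤
            S.card * 2 ^ l₁ := by
          refine Finset.card_biUnion_le_card_mul _ _ _ fun k hk => ?_
          refine (qs_card _ _ _).trans ?_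
          refine le_trans (eval_mono' _ (hlenx k (hSsub hk) _ (hc1 k hk))) ha'.le
        have h3 : S.card ≤ 2 ^ n := by
          rw [← card_blk n]
          exact Finset.card_le_card hSsub
        have h4 : S.card * 2 ^ l₁ ≤ Wb (2 ^ l₁ - 1) := by
          unfold Wb
          rw [hlgi, ← hn]
          calc S.card * 2 ^ l₁ ≤ 2 ^ n * 2 ^ l₁ := by gcongr
            _ = 2 ^ (n + l₁) := by rw [pow_add]
            _ ≤ 2 ^ (n + 2 * l₁) := Nat.pow_le_pow_right (by norm_num) (by omega)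
        have h5 : (2 * (2 ^ l₁ - 1) + 1) * Wb (2 ^ l₁ - 1) =
            2 * (2 ^ l₁ - 1) * Wb (2 ^ l₁ - 1) + Wb (2 ^ l₁ - 1) := by ring
        rw [h5]
        exact h1.trans (add_le_add c3 (h2.trans h4))) (by
        intro v hv
        rcases Finset.mem_union.1 hv with h | h
        · exact hlen₁ v h
        · obtain ⟨k, hk, hk'⟩ := Finset.mem_biUnion.1 h
          have := hqlen _ k (hSsub hk) _ (hc1 k hk) v hk'
          omega) hF₁₂ (by
        intro k u hk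
        rw [hW₂, Set.mem_ofPred_eq, ← f1 k u hk]
        have h2 : k + 1 < 2 ^ l' := by omega
        exact ⟨fun h => h.1, fun h => ⟨h, h2⟩⟩) (by
        intro k u hk hk1 h
        exact f2 k u hk hk1 h.1) (by
        intro k u hk h
        have := h.2
        simp only at this
        omega) hβ₂n (by
        intro k
        rw [hβ₂]
        simp only
        split_ifs
        · norm_num [abs_of_nonneg]
        · exact hg.bet k)
    refine ⟨W₃, β₂, F₃, l', l₁, g1, g2, hll1, ⟨by omega, hzero β₂ hβ₂n, ?_⟩⟩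
    intro A' hA'
    rw [← hn]
    refine gain_A (S := S) hSsub f4 ?_ ?_
    · intro k hk
      refine ⟨by rw [hβ₂]; simp only; rw [if_pos hk], ?_⟩
      rw [decide_eq_true_iff]
      refine ⟨c k, hc1 k hk, ?_⟩
      rw [hshort (Orc W₃ β₂) A' (fun v hv => hA' v (by omega)) k (hSsub hk) _ (hc1 k hk),
        ← hc2 k hk]
      refine qs_det M (Orc Ws β) _ _ fun v hv => ?_
      rw [g3 v (Finset.mem_union_right _ (Finset.mem_biUnion.2 ⟨k, hk, hv⟩))]
      exact hshort₂ v (hqlen _ k (hSsub hk) _ (hc1 k hk) v hv)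
    · intro k hk hkS
      rw [hβ₂]
      simp only
      rw [if_neg hkS]
      refine hg.bet0 k ?_
      have h1 := pow_lg_le k
      rw [mem_blk.1 hk] at h1
      omega
  · push Not at hcase
    set β₂ : ℕ → ℝ := fun k => if k ∈ blk n then -(1 / 2) else β k with hβ₂
    have hβ₂n : ∀ k, k ∉ blk n → β₂ k = β k := by
      intro k hk
      rw [hβ₂]
      simp only
      rw [if_neg hk]
    have hβchg : ∀ (W' : Set (ℕ × List Bool)) (v : List Bool), v.length < 2 ^ n →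
        Orc W' β₂ v = Orc W' β v := fun W' v hv =>
      Orc_congr (fun _ _ _ => Iff.rfl) fun k hk => hbchg β₂ hβ₂n k (by omega)
    obtain ⟨W₃, F₃, g1, g2, g3, g4⟩ := key 0 (by norm_num) W₁ β₂ F₁ (Finset.Subset.refl _) (by
        refine c3.trans ?_
        gcongr
        omega) hlen₁ (fun v hv => hβchg W₁ v (hlen₁ v hv)) (fun _ _ _ => Iff.rfl)
        (fun k u hk _ => hsupp₁ k u hk) (fun k u hk => hsupp₁ k u (by omega)) hβ₂n (by
        intro k
        rw [hβ₂]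
        simp only
        split_ifs
        · norm_num [abs_of_nonneg]
        · exact hg.bet k)
    have hcnt := hcase W₃ (fun k u hk => g4 k u (Or.inl hk)) (fun k u hk hk1 => by
        rw [g4 k u (Or.inr (by omega))]
        exact hsupp₁ k u hk) (fun v hv => by
        rw [← hβchg W₃ v (hlen₁ v hv), g3 v hv, hβchg W₁ v (hlen₁ v hv)])
    refine ⟨W₃, β₂, F₃, l', l₁, g1, g2, hll1, ⟨by omega, hzero β₂ hβ₂n, ?_⟩⟩
    intro A' hA'
    rw [← hn]
    refine gain_B (by rw [card_blk, hnq]) ?_ ?_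
    · refine le_trans (Finset.card_le_card ?_) hcnt.le
      intro k hk
      rw [Finset.mem_filter] at hk ⊢
      refine ⟨hk.1, ?_⟩
      have h1 := hk.2
      rw [decide_eq_true_iff] at h1
      refine (hacc (Orc W₃ β) A' (fun v hv => ?_) k hk.1).1 h1
      rw [hA' v (by omega), hβchg W₃ v (by omega)]
    · intro k hk
      rw [hβ₂]
      simp only
      rw [if_pos hk]

end Pool.Agent.H274R3.Dim
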