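import Pool.Agent.H274R3.Dim.Bets

/-!
# Filling the oracle, string by string
-/

set_option autoImplicit false

namespace Pool.Agent.H274R3.Dim

open Pool.Agent.NPC Pool.Agent.H628R3.RO

/-- bound for the number of frozen strings -/
def Wb (i : ℕ) : ℕ := 2 ^ (lg i ^ 2 + 2 * lg i)

theorem Wb_mono {i j : ℕ} (h : i ≤ j) : Wb i ≤ Wb j := by
  unfold Wb
  have h1 := lg_mono h
  exact Nat.pow_le_pow_right (by norm_num) (by nlinarith)

theorem two_mul_le_Wb {i : ℕ} (h : 1 ≤ lg i) : (lg i + 1) * (2 * 2 ^ (lg i ^ 2)) ≤ Wb i := by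
  unfold Wb
  have h1 : lg i + 1 ≤ 2 ^ lg i := Nat.lt_two_pow_self
  have h2 : 2 ≤ 2 ^ lg i := by
    calc 2 = 2 ^ 1 := rfl
      _ ≤ 2 ^ lg i := Nat.pow_le_pow_right (by norm_num) h
  calc (lg i + 1) * (2 * 2 ^ (lg i ^ 2)) ≤ 2 ^ lg i * (2 ^ lg i * 2 ^ (lg i ^ 2)) := by gcongr
    _ = 2 ^ (lg i ^ 2 + 2 * lg i) := by ring

theorem card_lt {i c : ℕ} (h3 : 3 ≤ lg i) (hc : c ≤ 2 * (i + 1) * Wb i) : c < 2 ^ (lg i ^ 3) := by
  have h1 := lt_pow_lg i
  have h2 : 2 * (i + 1) * Wb i < 2 * 2 ^ (lg i + 1) * Wb i := by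
    have : 0 < Wb i := by unfold Wb; positivity
    have := Nat.mul_lt_mul_of_pos_right (show 2 * (i + 1) < 2 * 2 ^ (lg i + 1) by omega) this
    exact this
  have h4 : 2 * 2 ^ (lg i + 1) * Wb i = 2 ^ (lg i ^ 2 + 3 * lg i + 2) := by
    unfold Wb
    ring
  have h5 : 2 ^ (lg i ^ 2 + 3 * lg i + 2) ≤ 2 ^ (lg i ^ 3) := by
    refine Nat.pow_le_pow_right (by norm_num) ?_
    have : lg i ^ 3 = lg i * lg i ^ 2 := by ring
    nlinarith
  omega

/-- a witness that is not frozen -/
theorem exists_fresh {i : ℕ} {F : Finset (List Bool)} (hF : F.card < 2 ^ (lg i ^ 3)) :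
    ∃ u : List Bool, u.length ≤ lg i ^ 3 ∧ code i u ∉ F := by
  classical
  let S : Finset (List Bool) :=
    Finset.univ.image fun f : Fin (lg i ^ 3) → Bool => code i (List.ofFn f)
  have hS : S.card = 2 ^ (lg i ^ 3) := by
    rw [Finset.card_image_of_injective]
    · simp
    · intro f g h
      exact List.ofFn_injective (code_inj h).2
  obtain ⟨v, hv, hv'⟩ := Finset.exists_mem_notMem_of_card_lt_card (hF.trans_eq hS.symm)
  obtain ⟨f, -, rfl⟩ := Finset.mem_image.1 hv
  exact ⟨List.ofFn f, by simp, hv'⟩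

theorem DetU.succ {W : Set (ℕ × List Bool)} {β : ℕ → ℝ} {F : Finset (List Bool)} {i : ℕ}
    (h : DetU W β F i) (h' : ∀ j, act j ≤ i → ∀ b, Det F (Orc W β) (en j) (xin W i b)) :
    DetU W β F (i + 1) := by
  intro j k h1 h2 b
  rcases Nat.lt_succ_iff_lt_or_eq.1 h2 with h3 | rfl
  · exact h j k h1 h3 b
  · exact h' j h1 b

theorem step {W : Set (ℕ × List Bool)} {β : ℕ → ℝ} {F : Finset (List Bool)} {i : ℕ} (hi : 7 ≤ i)
    (hlen : ∀ v ∈ F, v.length < 2 ^ (lg i ^ 2)) (hcard : F.card ≤ (2 * i + 1) * Wb i)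
    (hdet : DetU W β F i) (hard : Prop) [Decidable hard] (hh : hard → ∀ u, (i, u) ∉ W) :
    ∃ (W' : Set (ℕ × List Bool)) (F' : Finset (List Bool)), F ⊆ F' ∧
      (∀ v ∈ F', v.length < 2 ^ (lg i ^ 2)) ∧ F'.card ≤ 2 * (i + 1) * Wb i ∧
      (∀ v ∈ F', Orc W' β v = Orc W β v) ∧ (∀ k u, k ≠ i → ((k, u) ∈ W' ↔ (k, u) ∈ W)) ∧
      (¬ hard → W' = W) ∧ DetU W' β F' (i + 1) ∧
      Pot W' β (i + 1) ≤ (if hard then 1 / 2 else 1) * Pot W β i := by
  classical
  have hlg : 3 ≤ lg i := le_lg_iff.2 (by omega)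
  set New : Finset (List Bool) := (Finset.range (lg i + 1)).biUnion fun j =>
    if act j ≤ i then qs (en j) (Orc W β) (xin W i false) ∪ qs (en j) (Orc W β) (xin W i true)
    else ∅ with hNew
  have hqs : ∀ j, act j ≤ i → ∀ b, qs (en j) (Orc W β) (xin W i b) ⊆ New := by
    intro j hj b v hv
    rw [hNew, Finset.mem_biUnion]
    refine ⟨j, Finset.mem_range.2 (by have := (act_spec j i hj).1; omega), ?_⟩
    rw [if_pos hj]
    cases b
    · exact Finset.mem_union_left _ hv
    · exact Finset.mem_union_right _ hv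
  have hNlen : ∀ v ∈ New, v.length < 2 ^ (lg i ^ 2) := by
    intro v hv
    rw [hNew, Finset.mem_biUnion] at hv
    obtain ⟨j, -, hv⟩ := hv
    by_cases hj : act j ≤ i
    · rw [if_pos hj, Finset.mem_union] at hv
      have h1 : v.length ≤ (qb (en j)).eval (5 * i + 10) := by
        rcases hv with hv | hv
        · have := qs_len _ _ _ v hv
          rwa [length_xin] at this
        · have := qs_len _ _ _ v hv
          rwa [length_xin] at this
      exact h1.trans_lt (act_spec j i hj).2.2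
    · rw [if_neg hj] at hv
      simp at hv
  have hNcard : New.card ≤ (lg i + 1) * (2 * 2 ^ (lg i ^ 2)) := by
    rw [hNew]
    refine (Finset.card_biUnion_le_card_mul _ _ (2 * 2 ^ (lg i ^ 2)) fun j _ => ?_).trans (by simp)
    split_ifs with hj
    · refine (Finset.card_union_le _ _).trans ?_
      have h1 := qs_card (en j) (Orc W β) (xin W i false)
      have h2 := qs_card (en j) (Orc W β) (xin W i true)
      rw [length_xin] at h1 h2
      have h3 := (act_spec j i hj).2.1
      omega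
    · simp
  set F' := F ∪ New with hF'
  have hFF' : F ⊆ F' := Finset.subset_union_left
  have hlen' : ∀ v ∈ F', v.length < 2 ^ (lg i ^ 2) := by
    intro v hv
    rcases Finset.mem_union.1 hv with h | h
    · exact hlen v h
    · exact hNlen v h
  have hcard' : F'.card ≤ 2 * (i + 1) * Wb i := by
    have h1 : F'.card ≤ F.card + New.card := Finset.card_union_le F New
    have h2 := two_mul_le_Wb (i := i) (by omega)
    have h3 : 2 * (i + 1) * Wb i = (2 * i + 1) * Wb i + Wb i := by ring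
    rw [h3]
    exact h1.trans (add_le_add hcard (hNcard.trans h2))
  have hdi : ∀ j, act j ≤ i → ∀ b, Det F' (Orc W β) (en j) (xin W i b) := fun j hj b =>
    (qs_det _ _ _).mono ((hqs j hj b).trans Finset.subset_union_right)
  have hdet' : DetU W β F' (i + 1) := (hdet.mono hFF').succ hdi
  by_cases hhard : hard
  · obtain ⟨b, hb⟩ := exists_Pob_le W β i
    have hno := hh hhard
    cases b with
    | false =>
      refine ⟨W, F', hFF', hlen', hcard', fun _ _ => rfl, fun _ _ _ => Iff.rfl,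
        fun h => absurd hhard h, hdet', ?_⟩
      rw [if_pos hhard, Pot_succ]
      have : bw W i = false := by
        unfold bw
        rw [decide_eq_false_iff_not]
        rintro ⟨u, -, hu⟩
        exact hno u hu
      rwa [this]
    | true =>
      obtain ⟨u, hu1, hu2⟩ := exists_fresh (card_lt hlg hcard')
      set W' : Set (ℕ × List Bool) := insert (i, u) W with hW'
      have hag : ∀ v ∈ F', Orc W' β v = Orc W β v := by
        intro v hv
        refine Orc_congr (fun k u' hku => ?_) fun _ _ => rfl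
        rw [hW', Set.mem_insert_iff]
        constructor
        · rintro (h | h)
          · rw [Prod.mk.injEq] at h
            obtain ⟨rfl, rfl⟩ := h
            exact absurd (hku ▸ hv) hu2
          · exact h
        · exact Or.inr
      have hne : ∀ k u', k ≠ i → ((k, u') ∈ W' ↔ (k, u') ∈ W) := by
        intro k u' hk
        rw [hW', Set.mem_insert_iff, Prod.mk.injEq]
        constructor
        · rintro (⟨h, -⟩ | h)
          · exact absurd h hk
          · exact h
        · exact Or.inr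
      have hlt : ∀ k < i, ∀ u', (k, u') ∈ W' ↔ (k, u') ∈ W := fun k hk u' => hne k u' hk.ne
      refine ⟨W', F', hFF', hlen', hcard', hag, hne, fun h => absurd hhard h, ?_, ?_⟩
      · refine ((hdet.mono hFF').congr hlt hag).succ fun j hj b => ?_
        rw [xin_congr hlt le_rfl]
        exact (hdi j hj b).congr hag
      · rw [if_pos hhard, Pot_succ]
        have h1 : bw W' i = true := by
          unfold bw
          rw [decide_eq_true_iff]
          exact ⟨u, hu1, Set.mem_insert _ _⟩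
        have h2 : Pob W' β i true = Pob W β i true := by
          unfold Pob
          refine tsum_congr fun j => ?_
          rw [pi_congr hlt hag (hdet.mono hFF') j le_rfl,
            rt_congr hlt hag le_rfl (fun h b => hdi j h b)]
        rw [h1, h2]
        exact hb
  · refine ⟨W, F', hFF', hlen', hcard', fun _ _ => rfl, fun _ _ _ => Iff.rfl, fun _ => rfl,
      hdet', ?_⟩
    rw [if_neg hhard, one_mul]
    exact Pot_succ_le _ _ _

/-- The situation before the string number `i` is treated. -/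
structure Cnd (W : Set (ℕ × List Bool)) (β : ℕ → ℝ) (F : Finset (List Bool)) (i : ℕ) : Prop where
  ge : 7 ≤ i
  len : ∀ v ∈ F, v.length < 2 ^ (lg i ^ 2)
  card : F.card ≤ (2 * i + 1) * Wb i
  det : DetU W β F i
  pot : ∀ m, 2 * m + 1 ≤ i → Pot W β (2 * m + 1) ≤ 2 * (1 / 2) ^ m

theorem pair_step {W : Set (ℕ × List Bool)} {β : ℕ → ℝ} {F : Finset (List Bool)} {m : ℕ} (t : ℕ)
    (ht : t < 2) (hc : Cnd W β F (2 * m + 1))
    (hno : ∀ k u, 2 * m + 1 ≤ k → k % 2 = t → (k, u) ∉ W) :
    ∃ (W' : Set (ℕ × List Bool)) (F' : Finset (List Bool)), Cnd W' β F' (2 * m + 3) ∧ F ⊆ F' ∧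
      F'.card ≤ 2 * (2 * m + 3) * Wb (2 * m + 3) ∧
      (∀ v ∈ F, Orc W' β v = Orc W β v) ∧
      (∀ k u, (k < 2 * m + 1 ∨ 2 * m + 3 ≤ k ∨ k % 2 ≠ t) → ((k, u) ∈ W' ↔ (k, u) ∈ W)) := by
  have h7 := hc.ge
  obtain ⟨W₁, F₁, a1, a2, a3, a4, a5, a6, a7, a8⟩ := step hc.ge hc.len hc.card hc.det
    ((2 * m + 1) % 2 = t) (fun h u => hno _ u le_rfl h)
  have hlg : lg (2 * m + 1) ≤ lg (2 * m + 2) := lg_mono (by omega)
  have hlg' : lg (2 * m + 2) ≤ lg (2 * m + 3) := lg_mono (by omega)
  obtain ⟨W₂, F₂, b1, b2, b3, b4, b5, b6, b7, b8⟩ := step (W := W₁) (β := β) (F := F₁)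
    (i := 2 * m + 2) (by omega)
    (fun v hv => (a2 v hv).trans_le (Nat.pow_le_pow_right (by norm_num)
      (Nat.pow_le_pow_left hlg 2)))
    (a3.trans (by
      have := Wb_mono (show 2 * m + 1 ≤ 2 * m + 2 by omega)
      calc 2 * (2 * m + 1 + 1) * Wb (2 * m + 1) ≤ (2 * (2 * m + 2) + 1) * Wb (2 * m + 2) := by
            gcongr; omega
        _ = _ := rfl))
    a7 ((2 * m + 2) % 2 = t) (fun h u => by
      rw [a5 _ _ (by omega)]
      exact hno _ u (by omega) h)
  have hb3 : F₂.card ≤ 2 * (2 * m + 3) * Wb (2 * m + 3) := by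
    refine b3.trans ?_
    have := Wb_mono (show 2 * m + 2 ≤ 2 * m + 3 by omega)
    gcongr
  have hag : ∀ v ∈ F₁, Orc W₂ β v = Orc W β v := fun v hv => (b4 v (b1 hv)).trans (a4 v hv)
  have hcg : ∀ k u, (k < 2 * m + 1 ∨ 2 * m + 3 ≤ k ∨ k % 2 ≠ t) →
      ((k, u) ∈ W₂ ↔ (k, u) ∈ W) := by
    intro k u hk
    by_cases h1 : k = 2 * m + 1
    · subst h1
      rw [b5 _ _ (by omega), a6 (by omega)]
    · by_cases h2 : k = 2 * m + 2
      · subst h2
        rw [b6 (by omega), a5 _ _ (by omega)]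
      · rw [b5 _ _ h2, a5 _ _ h1]
  refine ⟨W₂, F₂, ⟨by omega, ?_, ?_, b7, ?_⟩, a1.trans b1, hb3, fun v hv => hag v (a1 hv), hcg⟩
  · exact fun v hv => (b2 v hv).trans_le (Nat.pow_le_pow_right (by norm_num)
      (Nat.pow_le_pow_left hlg' 2))
  · refine hb3.trans ?_
    gcongr
    omega
  · intro m' hm'
    rcases Nat.lt_or_ge m' (m + 1) with h | h
    · rw [Pot_congr (fun k hk u => hcg k u (Or.inl hk)) (fun v hv => hag v (a1 hv)) hc.det
        (by omega)]
      exact hc.pot m' (by omega)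
    · have hm : m' = m + 1 := by omega
      subst hm
      have e : 2 * (m + 1) + 1 = 2 * m + 2 + 1 := by ring
      rw [e]
      have h0 := hc.pot m le_rfl
      have h1 := Pot_nonneg W β (2 * m + 1)
      have h2 : (2 * m + 1) % 2 = 1 := by omega
      have h3 : (2 * m + 2) % 2 = 0 := by omega
      rw [h2] at a8
      rw [h3] at b8
      have h4 : Pot W₂ β (2 * m + 2 + 1) ≤ 1 / 2 * Pot W β (2 * m + 1) := by
        rcases (show t = 0 ∨ t = 1 by omega) with rfl | rfl
        · simp only [one_ne_zero, if_false, one_mul] at a8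
          simp only [if_true] at b8
          refine b8.trans ?_
          have : 2 * m + 1 + 1 = 2 * m + 2 := rfl
          rw [this] at a8
          linarith
        · simp only [if_true] at a8
          simp only [zero_ne_one, if_false, one_mul] at b8
          exact b8.trans a8
      rw [pow_succ]
      linarith

theorem fill {W : Set (ℕ × List Bool)} {β : ℕ → ℝ} {F : Finset (List Bool)} {m : ℕ} (t : ℕ)
    (ht : t < 2) (hc : Cnd W β F (2 * m + 1))
    (hno : ∀ k u, 2 * m + 1 ≤ k → k % 2 = t → (k, u) ∉ W) (n : ℕ) :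
    ∃ (W' : Set (ℕ × List Bool)) (F' : Finset (List Bool)), Cnd W' β F' (2 * (m + n) + 1) ∧
      F ⊆ F' ∧ (0 < n → F'.card ≤ 2 * (2 * (m + n) + 1) * Wb (2 * (m + n) + 1)) ∧
      (∀ v ∈ F, Orc W' β v = Orc W β v) ∧
      (∀ k u, (k < 2 * m + 1 ∨ 2 * (m + n) + 1 ≤ k ∨ k % 2 ≠ t) →
        ((k, u) ∈ W' ↔ (k, u) ∈ W)) := by
  induction n with
  | zero =>
    exact ⟨W, F, hc, Finset.Subset.refl _, fun h => absurd h (lt_irrefl _), fun _ _ => rfl,
      fun _ _ _ => Iff.rfl⟩
  | succ n ih =>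
    obtain ⟨W₁, F₁, a1, a2, a3, a4, a5⟩ := ih
    obtain ⟨W₂, F₂, b1, b2, b3, b4, b5⟩ := pair_step t ht a1 (fun k u hk hkt => by
      rw [a5 k u (Or.inr (Or.inl hk))]
      exact hno k u (by omega) hkt)
    have e : 2 * (m + (n + 1)) + 1 = 2 * (m + n) + 3 := by ring
    rw [e]
    refine ⟨W₂, F₂, b1, a2.trans b2, fun _ => b3, fun v hv => (b4 v (a2 hv)).trans (a4 v hv), ?_⟩
    intro k u hk
    rw [b5 k u (by omega), a5 k u (by omega)]

end Pool.Agent.H274R3.Dim
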