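import Pool.Agent.H274R3.Dim.Defs

/-!
# The enumeration of the strings
-/

set_option autoImplicit false

namespace Pool.Agent.H274R3.Dim

/-- The number of a string, plus one. -/
def sval (y : List Bool) : ℕ := y.foldl (fun n b => 2 * n + b.toNat) 1

theorem sval_nil : sval [] = 1 := rfl

theorem sval_append (y : List Bool) (b : Bool) : sval (y ++ [b]) = 2 * sval y + b.toNat := by
  simp [sval, List.foldl_append]

theorem sval_bounds (y : List Bool) : 2 ^ y.length ≤ sval y ∧ sval y < 2 ^ (y.length + 1) := by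
  induction y using List.reverseRecOn with
  | nil => simp [sval_nil]
  | append_singleton y b ih =>
    rw [sval_append, List.length_append, List.length_singleton]
    have hb : b.toNat ≤ 1 := by cases b <;> simp
    have e1 : 2 ^ (y.length + 1) = 2 * 2 ^ y.length := by rw [pow_succ]; ring
    have e2 : 2 ^ (y.length + 1 + 1) = 2 * 2 ^ (y.length + 1) := by rw [pow_succ]; ring
    omega

theorem sval_pos (y : List Bool) : 0 < sval y :=
  lt_of_lt_of_le (Nat.pow_pos (by norm_num)) (sval_bounds y).1

theorem bits_sval (y : List Bool) : Nat.bits (sval y) = y.reverse ++ [true] := by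
  induction y using List.reverseRecOn with
  | nil => simp [sval_nil]
  | append_singleton y b ih =>
    have e : sval (y ++ [b]) = Nat.bit b (sval y) := by
      rw [sval_append, Nat.bit_val]
    rw [e, Nat.bits_append_bit _ _ (fun h => absurd h (sval_pos y).ne'), ih]
    simp

theorem sval_surj (n : ℕ) (hn : 1 ≤ n) : ∃ y, sval y = n := by
  induction n using Nat.strong_induction_on with
  | _ n ih =>
    rcases Nat.lt_or_ge n 2 with h | h
    · exact ⟨[], by rw [sval_nil]; omega⟩
    · obtain ⟨y, hy⟩ := ih (n / 2) (by omega) (by omega)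
      refine ⟨y ++ [n % 2 == 1], ?_⟩
      rw [sval_append, hy]
      rcases Nat.mod_two_eq_zero_or_one n with h2 | h2
      · rw [h2]; simp; omega
      · rw [h2]; simp; omega

theorem str_sval (y : List Bool) : str (sval y - 1) = y := by
  unfold str
  rw [Nat.sub_add_cancel (sval_pos y), bits_sval]
  simp

theorem exists_str (i : ℕ) : ∃ y, sval y = i + 1 ∧ str i = y := by
  obtain ⟨y, hy⟩ := sval_surj (i + 1) (by omega)
  refine ⟨y, hy, ?_⟩
  have := str_sval y
  rw [hy] at this
  simpa using this

theorem sval_str (i : ℕ) : sval (str i) - 1 = i := by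
  obtain ⟨y, hy, hs⟩ := exists_str i
  rw [hs, hy]
  simp

theorem str_inj {i j : ℕ} (h : str i = str j) : i = j := by
  rw [← sval_str i, h, sval_str j]

theorem str_surj (y : List Bool) : ∃ i, str i = y := ⟨_, str_sval y⟩

/-- length of the string number `k` -/
def lg (k : ℕ) : ℕ := Nat.log 2 (k + 1)

theorem length_str (i : ℕ) : (str i).length = lg i := by
  obtain ⟨y, hy, hs⟩ := exists_str i
  rw [hs]
  have h := sval_bounds y
  rw [hy] at h
  exact (Nat.log_eq_of_pow_le_of_lt_pow h.1 h.2).symm

theorem pow_lg_le (k : ℕ) : 2 ^ lg k ≤ k + 1 := Nat.pow_log_le_self 2 (by omega)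

theorem lt_pow_lg (k : ℕ) : k + 1 < 2 ^ (lg k + 1) := Nat.lt_pow_succ_log_self (by norm_num) _

theorem lg_lt_iff {k l : ℕ} : lg k < l ↔ k + 1 < 2 ^ l := by
  constructor
  · intro h
    exact lt_of_lt_of_le (lt_pow_lg k) (Nat.pow_le_pow_right (by norm_num) h)
  · intro h
    by_contra hc
    have : 2 ^ l ≤ 2 ^ lg k := Nat.pow_le_pow_right (by norm_num) (by omega)
    have := pow_lg_le k
    omega

theorem le_lg_iff {k l : ℕ} : l ≤ lg k ↔ 2 ^ l ≤ k + 1 := by
  have := @lg_lt_iff k l
  omega

theorem lg_mono {k l : ℕ} (h : k ≤ l) : lg k ≤ lg l := Nat.log_mono_right (by omega)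

theorem lg_pow (l : ℕ) : lg (2 ^ l - 1) = l := by
  have h : 2 ^ l - 1 + 1 = 2 ^ l := Nat.sub_add_cancel (Nat.one_le_two_pow)
  unfold lg
  rw [h, Nat.log_pow (by norm_num)]

end Pool.Agent.H274R3.Dim
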