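import Pool.Agent.H274R3.Dim.Limit

/-!
# The upper bound: the gale is computable and succeeds on `NP`
-/

set_option autoImplicit false

namespace Pool.Agent.H274R3.Dim

open Pool.Agent.NPC Pool.Agent.H628R3.RO

theorem fac_add (x : ℝ) : fac x false + fac x true = 2 := by
  unfold fac
  norm_num

theorem fac_pos {x : ℝ} (hx : |x| ≤ 1 / 2) (b : Bool) : 1 / 2 ≤ fac x b := by
  have := abs_le.1 hx
  unfold fac
  split_ifs <;> linarith

theorem fac_le {x : ℝ} (hx : |x| ≤ 1 / 2) (b : Bool) : fac x b ≤ 2 := by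
  have := abs_le.1 hx
  unfold fac
  split_ifs <;> linarith

theorem mg_append (β : ℕ → ℝ) (w : List Bool) (b : Bool) :
    mg β (w ++ [b]) = mg β w * fac (β w.length) b := by
  unfold mg
  rw [List.length_append, List.length_singleton, Finset.prod_range_succ]
  congr 1
  · refine Finset.prod_congr rfl fun k hk => ?_
    rw [List.getD_append _ _ _ _ (Finset.mem_range.1 hk)]
  · rw [List.getD_append_right _ _ _ _ le_rfl]
    simp

theorem mg_nonneg {β : ℕ → ℝ} (hβ : ∀ k, |β k| ≤ 1 / 2) (w : List Bool) : 0 ≤ mg β w :=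
  Finset.prod_nonneg fun k _ => le_trans (by norm_num) (fac_pos (hβ k) _)

theorem mg_le {β : ℕ → ℝ} (hβ : ∀ k, |β k| ≤ 1 / 2) (w : List Bool) : mg β w ≤ 2 ^ w.length := by
  unfold mg
  refine (Finset.prod_le_prod (fun k _ => le_trans (by norm_num) (fac_pos (hβ k) _))
    fun k _ => fac_le (hβ k) _).trans ?_
  rw [Finset.prod_const, Finset.card_range]

theorem gale_isGale {β : ℕ → ℝ} (hβ : ∀ k, |β k| ≤ 1 / 2) : IsGale (31 / 32) (gale β) := by
  refine ⟨fun w => mul_nonneg (by positivity) (mg_nonneg hβ w), fun w => ?_⟩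
  unfold gale
  rw [mg_append, mg_append]
  simp only [List.length_append, List.length_singleton, Nat.cast_add, Nat.cast_one]
  have h1 : (2 : ℝ) ^ (-(w.length : ℝ) / 32) =
      2 ^ (-(31 / 32 : ℝ)) * 2 ^ (-((w.length : ℝ) + 1) / 32) * 2 := by
    have h2 : (2 : ℝ) = 2 ^ (1 : ℝ) := (Real.rpow_one 2).symm
    conv_rhs => rw [h2]
    rw [Real.rpow_one, ← Real.rpow_add (by norm_num), ← Real.rpow_add_one (by norm_num)]
    congr 1
    ring
  have h3 := fac_add (β w.length)
  rw [h1]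
  linear_combination (-(2 ^ (-(31 / 32 : ℝ)) * 2 ^ (-((w.length : ℝ) + 1) / 32) * mg β w)) * h3

theorem gale_nonneg {β : ℕ → ℝ} (hβ : ∀ k, |β k| ≤ 1 / 2) (w : List Bool) : 0 ≤ gale β w :=
  (gale_isGale hβ).1 w

theorem gale_le {β : ℕ → ℝ} (hβ : ∀ k, |β k| ≤ 1 / 2) (w : List Bool) :
    gale β w ≤ 2 ^ w.length := by
  unfold gale
  have h1 : (2 : ℝ) ^ (-(w.length : ℝ) / 32) ≤ 1 := by
    apply Real.rpow_le_one_of_one_le_of_nonpos (by norm_num)
    have : (0 : ℝ) ≤ w.length := Nat.cast_nonneg _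
    linarith
  calc (2 : ℝ) ^ (-(w.length : ℝ) / 32) * mg β w ≤ 1 * 2 ^ w.length := by
        gcongr
        · exact mg_nonneg hβ w
        · exact mg_le hβ w
    _ = 2 ^ w.length := one_mul _

theorem apx_error {β : ℕ → ℝ} (hβ : ∀ k, |β k| ≤ 1 / 2) (r : ℕ) (w : List Bool) :
    |(apx β r w : ℝ) - gale β w| ≤ (1 / 2) ^ r := by
  have h0 : 0 ≤ gale β w * 2 ^ r := mul_nonneg (gale_nonneg hβ w) (by positivity)
  have h1 := Nat.floor_le h0
  have h2 := Nat.lt_floor_add_one (gale β w * 2 ^ r)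
  have h3 : (apx β r w : ℝ) = (⌊gale β w * 2 ^ r⌋₊ : ℝ) / 2 ^ r := by
    unfold apx
    push_cast
    rfl
  have h4 : (0 : ℝ) < 2 ^ r := by positivity
  rw [h3, abs_le]
  have h5 : ((1 : ℝ) / 2) ^ r = 1 / 2 ^ r := by rw [one_div_pow]
  rw [h5]
  constructor
  · rw [neg_le_sub_iff_le_add, ← add_div, le_div_iff₀ h4]
    linarith
  · have h6 : (⌊gale β w * 2 ^ r⌋₊ : ℝ) / 2 ^ r ≤ gale β w := by
      rw [div_le_iff₀ h4]
      exact h1
    have : (0 : ℝ) ≤ 1 / 2 ^ r := by positivity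
    linarith

theorem sz_apx {β : ℕ → ℝ} (hβ : ∀ k, |β k| ≤ 1 / 2) (r : ℕ) (w : List Bool) :
    sz (apx β r w) ≤ 8 * (2 * r + w.length) + 40 := by
  obtain ⟨m, hm⟩ : ∃ m, m = ⌊gale β w * 2 ^ r⌋₊ := ⟨_, rfl⟩
  have hmle : m ≤ 2 ^ (w.length + r) := by
    rw [hm]
    apply Nat.floor_le_of_le
    push_cast
    rw [pow_add]
    gcongr
    exact gale_le hβ w
  have hq : apx β r w = ((m : ℤ) : ℚ) / (((2 ^ r : ℕ) : ℤ) : ℚ) := by
    unfold apx
    rw [← hm]
    push_cast
    rfl
  have hden : (apx β r w).den ≤ 2 ^ r := by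
    have h1 : ((apx β r w).den : ℤ) ∣ ((2 ^ r : ℕ) : ℤ) := by
      rw [hq, ← Rat.divInt_eq_div]
      exact Rat.den_dvd _ _
    exact Nat.le_of_dvd (by positivity) (by exact_mod_cast h1)
  have hnum : (apx β r w).num.natAbs ≤ 2 ^ (w.length + r) := by
    rcases Nat.eq_zero_or_pos m with h | h
    · rw [hq, h]
      simp
    · have h1 : (apx β r w).num ∣ (m : ℤ) := by
        rw [hq, ← Rat.divInt_eq_div]
        exact Rat.num_dvd _ (by positivity)
      have h2 := Int.natAbs_dvd_natAbs.2 h1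
      rw [Int.natAbs_natCast] at h2
      exact (Nat.le_of_dvd h h2).trans hmle
  have e1 : sz (apx β r w) = sz (apx β r w).num + sz (apx β r w).den + 1 := by
    have : sz (apx β r w) = sz ((apx β r w).num, (apx β r w).den) := rfl
    rw [this, sz_pair]
  have e2 : sz (apx β r w).num = sz (decide ((apx β r w).num < 0)) +
      sz (apx β r w).num.natAbs + 1 := by
    have : sz (apx β r w).num = sz (decide ((apx β r w).num < 0), (apx β r w).num.natAbs) := rfl
    rw [this, sz_pair]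
  have h1 := sz_bool_le (decide ((apx β r w).num < 0))
  have h2 := sz_nat_le (apx β r w).num.natAbs
  have h3 := sz_nat_le (apx β r w).den
  have h4 : (apx β r w).num.natAbs.size ≤ w.length + r + 1 :=
    Nat.size_le.2 (hnum.trans_lt (Nat.pow_lt_pow_right (by norm_num) (by omega)))
  have h5 : (apx β r w).den.size ≤ r + 1 :=
    Nat.size_le.2 (hden.trans_lt (Nat.pow_lt_pow_right (by norm_num) (by omega)))
  omega

/-! ### Computability -/

theorem poly_pairBits {α : Type} [TEnc α] {f g : α → List Bool} (hf : NPC.Poly f) (hg : NPC.Poly g) :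
    Poly (fun a => pairBits (f a) (g a)) := by
  unfold pairBits
  exact NPC.Poly.append (NPC.Poly.flatMap (F := fun _ b => [true, b]) hf
    (NPC.Poly.cons (NPC.Poly.const true) (NPC.Poly.cons (NPC.Poly.snd NPC.Poly.id) (NPC.Poly.const []))))
    (NPC.Poly.cons (NPC.Poly.const false) hg)

/-- the questions -/
noncomputable def asks (x : List Bool) : List (List Bool) :=
  (List.range ((16 * Polynomial.X + 200 : Polynomial ℕ).eval x.length)).map fun k =>
    true :: pairBits x (Nat.bits k)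

theorem poly_asks : NPC.Poly asks := by
  have h1 : UPoly (fun x : List Bool =>
      (16 * Polynomial.X + 200 : Polynomial ℕ).eval x.length) := (UPoly.length NPC.Poly.id).eval _
  exact NPC.Poly.map (F := fun x k => true :: pairBits x (Nat.bits k)) h1.range
    (NPC.Poly.cons (NPC.Poly.const true) (poly_pairBits (NPC.Poly.fst NPC.Poly.id) (NPC.Poly.natBits (NPC.Poly.snd NPC.Poly.id))))

theorem answers_eq {W : Set (ℕ × List Bool)} {β : ℕ → ℝ} (hβ : ∀ k, |β k| ≤ 1 / 2) (r : ℕ)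
    (w : List Bool) : ∃ z : List Bool,
    (asks (pairBits (List.replicate r true) w)).map (Orc W β) =
      pairBits (bits (apx β r w)) z := by
  set x := pairBits (List.replicate r true) w with hx
  set o := pairBits (bits (apx β r w)) [] with ho
  set B := (16 * Polynomial.X + 200 : Polynomial ℕ).eval x.length with hB
  have hxl : x.length = 2 * r + 1 + w.length := by
    rw [hx, length_pairBits, List.length_replicate]
  have hBe : B = 16 * x.length + 200 := by
    rw [hB]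
    simp [Polynomial.eval_add, Polynomial.eval_mul]
  have hol : o.length ≤ B := by
    rw [ho, length_pairBits, bits_length]
    have := sz_apx hβ r w
    simp only [List.length_nil]
    omega
  refine ⟨List.replicate (B - o.length) false, ?_⟩
  have e : pairBits (bits (apx β r w)) (List.replicate (B - o.length) false) =
      o ++ List.replicate (B - o.length) false := by
    rw [ho]
    simp [pairBits]
  rw [e]
  refine List.ext_getElem ?_ ?_
  · simp only [asks, List.length_map, List.length_range, List.length_append, List.length_replicate]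
    omega
  · intro k h1 h2
    have hk : k < B := by
      simpa only [asks, List.length_map, List.length_range] using h1
    have e1 : ((asks x).map (Orc W β))[k] = Orc W β (true :: pairBits x (Nat.bits k)) := by
      simp [asks]
    rw [e1]
    have h3 := Orc_tab W β r w k
    rw [← hx, ← ho] at h3
    rw [Bool.eq_iff_iff, h3]
    by_cases hko : k < o.length
    · rw [List.getElem_append_left hko, List.getElem?_eq_getElem hko, Option.some.injEq]
    · rw [List.getElem_append_right (by omega), List.getElem?_eq_none (by omega)]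
      simp

theorem gale_comp {W : Set (ℕ × List Bool)} {β : ℕ → ℝ} (hβ : ∀ k, |β k| ≤ 1 / 2) :
    IsPComputable (Orc W β) (gale β) := by
  refine ⟨apx β, fun x => (unpair ((asks x).map (Orc W β))).1, ?_, ?_, apx_error hβ⟩
  · exact IsFP.tt (A := Orc W β) (Q := asks) (H := fun p => (unpair p.2).1) poly_asks
      (NPC.Poly.fst (poly_unpair.comp (NPC.Poly.snd NPC.Poly.id)))
  · intro r w
    obtain ⟨z, hz⟩ := answers_eq (W := W) hβ r w
    simp only
    rw [hz, unpair_pairBits]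

/-! ### Success -/

theorem length_chi (L : Set (List Bool)) (n : ℕ) : (chi L n).length = n := by
  simp [chi]

open Classical in
theorem mg_chi (β : ℕ → ℝ) (L : Set (List Bool)) (n : ℕ) :
    mg β (chi L n) = ∏ k ∈ Finset.range n, fac (β k) (decide (str k ∈ L)) := by
  unfold mg
  rw [length_chi]
  refine Finset.prod_congr rfl fun k hk => ?_
  have : (chi L n).getD k false = decide (str k ∈ L) := by
    rw [List.getD_eq_getElem _ _ (by rw [length_chi]; exact Finset.mem_range.1 hk)]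
    simp [chi]
  rw [this]

open Classical in
theorem mg_before {β : ℕ → ℝ} (hβ : ∀ k, |β k| ≤ 1 / 2) (b : ℕ → Bool) {a c : ℕ} (hac : a ≤ c)
    (h0 : ∀ k, a ≤ k → k < c → β k = 0) :
    (1 / 2 : ℝ) ^ a ≤ ∏ k ∈ Finset.range c, fac (β k) (b k) := by
  rw [← Finset.prod_range_mul_prod_Ico _ hac]
  have h1 : ∏ k ∈ Finset.Ico a c, fac (β k) (b k) = 1 := by
    refine Finset.prod_eq_one fun k hk => ?_
    rw [h0 k (Finset.mem_Ico.1 hk).1 (Finset.mem_Ico.1 hk).2]
    unfold fac
    split_ifs <;> norm_num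
  rw [h1, mul_one]
  have h2 : ∏ _k ∈ Finset.range a, (1 / 2 : ℝ) ≤ ∏ k ∈ Finset.range a, fac (β k) (b k) :=
    Finset.prod_le_prod (fun _ _ => by norm_num) fun k _ => fac_pos (hβ k) _
  simpa using h2

theorem half_pow (n : ℕ) : (1 / 2 : ℝ) ^ n = 2 ^ (-(n : ℝ)) := by
  rw [Real.rpow_neg (by norm_num), Real.rpow_natCast, one_div, inv_pow]

theorem succeeds_Acc (M : Alg) (p : Polynomial ℕ) : Succeeds (gale βi) (Acc M p Ai) := by
  classical
  intro C
  rw [Filter.frequently_atTop]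
  intro N
  obtain ⟨K, hK⟩ := exists_nat_gt C
  obtain ⟨l, h1, h2, h3, h4⟩ := gains M p (N + K)
  obtain ⟨n, hn⟩ : ∃ n, n = l ^ 2 := ⟨_, rfl⟩
  rw [← hn] at h3 h4
  have hln : l + 6 ≤ n := by rw [hn]; nlinarith
  have hp1 : 1 ≤ 2 ^ n := Nat.one_le_two_pow
  have hp2 : 2 ^ (n + 1) = 2 * 2 ^ n := by ring
  have hp3 : 2 ^ l ≤ 2 ^ n := Nat.pow_le_pow_right (by norm_num) (by omega)
  have hp4 : n < 2 ^ n := Nat.lt_two_pow_self
  refine ⟨2 ^ (n + 1) - 1, by omega, ?_⟩
  -- the martingale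
  have hm : (1 / 2 : ℝ) ^ (2 ^ l) * (3 / 2 : ℝ) ^ (2 ^ (n - 2)) ≤
      mg βi (chi (Acc M p Ai) (2 ^ (n + 1) - 1)) := by
    rw [mg_chi, ← Finset.prod_range_mul_prod_Ico _ (show 2 ^ n - 1 ≤ 2 ^ (n + 1) - 1 by omega)]
    have h5 := mg_before (β := βi) abs_βi (fun k => decide (str k ∈ Acc M p Ai))
      (show 2 ^ l ≤ 2 ^ n - 1 by
        have : 2 ^ l < 2 ^ n := Nat.pow_lt_pow_right (by norm_num) (by omega)
        omega) (fun k hk1 hk2 => h3 k (by omega) (by omega))
    have h6 : (0 : ℝ) ≤ (3 / 2 : ℝ) ^ (2 ^ (n - 2)) := by positivity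
    refine mul_le_mul h5 h4 h6 ?_
    exact Finset.prod_nonneg fun k _ => le_trans (by norm_num) (fac_pos (abs_βi k) _)
  -- powers of two
  have e4 : 2 ^ (n - 2) = 2 * 2 ^ (n - 3) := by
    obtain ⟨m, hm⟩ : ∃ m, n = m + 3 := ⟨n - 3, by omega⟩
    rw [hm]
    have : m + 3 - 2 = m + 1 := by omega
    rw [this, Nat.add_sub_cancel]
    ring
  have h7 : (2 : ℝ) ^ (2 ^ (n - 3)) ≤ (3 / 2 : ℝ) ^ (2 ^ (n - 2)) := by
    rw [e4, pow_mul]
    exact pow_le_pow_left₀ (by norm_num) (by norm_num) _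
  unfold gale
  rw [length_chi]
  have h8 : (2 : ℝ) ^ (-(2 ^ (n - 4) : ℕ) : ℝ) ≤
      2 ^ (-(((2 ^ (n + 1) - 1 : ℕ)) : ℝ) / 32) := by
    apply Real.rpow_le_rpow_of_exponent_le (by norm_num)
    have e5 : 2 ^ (n + 1) = 32 * 2 ^ (n - 4) := by
      obtain ⟨m, hm⟩ : ∃ m, n = m + 4 := ⟨n - 4, by omega⟩
      rw [hm, Nat.add_sub_cancel]
      ring
    have e6 : ((2 ^ (n + 1) - 1 : ℕ) : ℝ) ≤ 32 * ((2 ^ (n - 4) : ℕ) : ℝ) := by
      have : 2 ^ (n + 1) - 1 ≤ 32 * 2 ^ (n - 4) := by omega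
      exact_mod_cast this
    rw [le_div_iff₀ (by norm_num)]
    linarith
  have h9 : (2 : ℝ) ^ (2 ^ l : ℕ) ≤ (2 : ℝ) ^ (-(2 ^ (n - 4) : ℕ) : ℝ) *
      ((1 / 2 : ℝ) ^ (2 ^ l) * 2 ^ (2 ^ (n - 3))) := by
    rw [half_pow, ← Real.rpow_natCast 2 (2 ^ (n - 3)), ← Real.rpow_natCast 2 (2 ^ l),
      ← Real.rpow_add (by norm_num), ← Real.rpow_add (by norm_num)]
    apply Real.rpow_le_rpow_of_exponent_le (by norm_num)
    have e7 : 2 ^ (n - 4) + 2 * 2 ^ l ≤ 2 ^ (n - 3) := by
      obtain ⟨m, hm⟩ : ∃ m, n = m + 4 := ⟨n - 4, by omega⟩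
      have hlm : l + 1 ≤ m := by
        have : l + 6 ≤ m + 4 := by omega
        nlinarith
      have h10 : 2 ^ (l + 1) ≤ 2 ^ m := Nat.pow_le_pow_right (by norm_num) hlm
      rw [hm, Nat.add_sub_cancel]
      have : m + 4 - 3 = m + 1 := by omega
      rw [this, pow_succ 2 m]
      rw [pow_succ] at h10
      omega
    have e8 : ((2 ^ (n - 4) : ℕ) : ℝ) + 2 * ((2 ^ l : ℕ) : ℝ) ≤ ((2 ^ (n - 3) : ℕ) : ℝ) := by
      exact_mod_cast e7
    linarith
  have h10 : C < (2 : ℝ) ^ (2 ^ l : ℕ) := by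
    refine hK.trans_le ?_
    have h11 : K ≤ 2 ^ 2 ^ l := by
      have a1 : l < 2 ^ l := Nat.lt_two_pow_self
      have a2 : 2 ^ l < 2 ^ 2 ^ l := Nat.lt_two_pow_self
      omega
    exact_mod_cast h11
  refine h10.trans_le (h9.trans ?_)
  refine mul_le_mul h8 (le_trans ?_ hm) (by positivity) (by positivity)
  gcongr

theorem upper (L : Set (List Bool)) (hL : L ∈ classNP Ai) : Succeeds (gale βi) L := by
  obtain ⟨V, p, ⟨M, hM⟩, h⟩ := hL
  have : L = Acc M p Ai := by
    ext x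
    rw [h x]
    refine exists_congr fun w => and_congr_right fun _ => ?_
    rw [hM, Option.some.injEq]
  rw [this]
  exact succeeds_Acc M p

end Pool.Agent.H274R3.Dim
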